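import Pool.Agent.Helper74_Webb.Closed

/-!
# The centralizer of `F`
-/

namespace Pool.Agent.Helper74Webb

namespace GG

theorem s1 : ∀ p q r s : ZMod 2, p + q + q = 0 + r + s → r = p + s := by decide
theorem s2 : ∀ p q q' r s : ZMod 2, p + q' + q = 0 + r + s → r = p + s + q + q' := by decide

theorem s3 : ∀ p q : ZMod 2, p + q = 0 → p = q := by decide
theorem s4 : ∀ p q : ZMod 2, p + q = 1 → p = q + 1 := by decide

theorem s5 : ∀ p q : ZMod 2, q = p ∨ q = p + 1 := by decide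

theorem cent_aux (f : X → ZMod 2) (t : X → X) (h0 : f (0, 0, 0) = 0)
    (hy : ∀ p, (t p).2.1 + (t (0, 0, 0)).2.1 = p.2.1)
    (hz : ∀ p, (t p).2.2 + (t (0, 0, 0)).2.2 = p.2.2)
    (h1 : ∀ p, t (p + (1, 0, 0)) = t p + (1, 0, 0))
    (h2 : ∀ p, t (p + (0, 1, 0)) = t p + (0, 1, 0))
    (k1 : ∀ p, f p + (t p).1 + (t (0, 0, 0)).1 = p.1 + f (p + (1, 0, 0)) + f (1, 0, 0))
    (k2 : ∀ p, f p + (t p).1 + (t (0, 0, 0)).1 = p.1 + f (p + (0, 1, 0)) + f (0, 1, 0)) :
    (∃ v : X × X, (∀ p, f p = dot v.1 p) ∧ ∀ p, t p = p + v.2) ∨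
    ∃ v : X × X, (∀ p, f p = dot v.1 p + ((p + v.2).1 + (p + v.2).2.1) * (p + v.2).2.2
        + (v.2.1 + v.2.2.1) * v.2.2.2) ∧
      ∀ p, t p = ((p + v.2).1 + 1 + (p + v.2).2.2, (p + v.2).2.1, (p + v.2).2.2) := by
  obtain ⟨⟨a, b, c⟩, t000⟩ : ∃ q, t (0, 0, 0) = q := ⟨_, rfl⟩
  obtain ⟨⟨a', b', c'⟩, t001⟩ : ∃ q, t (0, 0, 1) = q := ⟨_, rfl⟩
  have hb := hy (0, 0, 1)
  have hc := hz (0, 0, 1)
  rw [t001, t000] at hb hc
  simp only at hb hc
  have hb' : b' = b := s3 _ _ hb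
  have hc' : c' = c + 1 := s4 _ _ hc
  subst hb' hc'
  have t100 : t (1, 0, 0) = t (0, 0, 0) + (1, 0, 0) := h1 (0, 0, 0)
  have t010 : t (0, 1, 0) = t (0, 0, 0) + (0, 1, 0) := h2 (0, 0, 0)
  have t110 : t (1, 1, 0) = t (0, 1, 0) + (1, 0, 0) := h1 (0, 1, 0)
  have t101 : t (1, 0, 1) = t (0, 0, 1) + (1, 0, 0) := h1 (0, 0, 1)
  have t011 : t (0, 1, 1) = t (0, 0, 1) + (0, 1, 0) := h2 (0, 0, 1)
  have t111 : t (1, 1, 1) = t (0, 1, 1) + (1, 0, 0) := h1 (0, 1, 1)
  have f110 : f (0, 1, 0) + (t (0, 1, 0)).1 + (t (0, 0, 0)).1 = 0 + f (1, 1, 0) + f (1, 0, 0) :=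
    k1 (0, 1, 0)
  have f101 : f (0, 0, 1) + (t (0, 0, 1)).1 + (t (0, 0, 0)).1 = 0 + f (1, 0, 1) + f (1, 0, 0) :=
    k1 (0, 0, 1)
  have f011 : f (0, 0, 1) + (t (0, 0, 1)).1 + (t (0, 0, 0)).1 = 0 + f (0, 1, 1) + f (0, 1, 0) :=
    k2 (0, 0, 1)
  have f111 : f (0, 1, 1) + (t (0, 1, 1)).1 + (t (0, 0, 0)).1 = 0 + f (1, 1, 1) + f (1, 0, 0) :=
    k1 (0, 1, 1)
  replace f110 := s2 _ _ _ _ _ f110
  replace f101 := s2 _ _ _ _ _ f101
  replace f011 := s2 _ _ _ _ _ f011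
  replace f111 := s2 _ _ _ _ _ f111
  rw [f011] at f111
  rw [t000] at t100 t010
  rw [t010] at t110
  rw [t001] at t101 t011
  rw [t011] at t111
  rw [t010, t000] at f110
  rw [t001, t000] at f101 f011
  rw [t011, t000, t001] at f111
  simp only [Prod.mk_add_mk, add_zero] at t100 t010 t110 t101 t011 t111 f110 f101 f011 f111
  clear h1 h2 k1 k2 hy hz hb hc
  generalize f001 : f (0, 0, 1) = f3 at *
  generalize f010 : f (0, 1, 0) = f2 at *
  generalize f100 : f (1, 0, 0) = f1 at *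
  rcases s5 a a' with h | h
  · subst h
    refine Or.inl ⟨((f1, f2, f3), (a', b', c)), ?_, ?_⟩
    · rintro ⟨x, y, z⟩
      rcases zmod2_cases x with rfl | rfl <;> rcases zmod2_cases y with rfl | rfl <;>
        rcases zmod2_cases z with rfl | rfl <;>
        simp only [h0, f100, f010, f001, f110, f101, f011, f111, dot] <;>
        clear * - <;> decide +revert
    · rintro ⟨x, y, z⟩
      rcases zmod2_cases x with rfl | rfl <;> rcases zmod2_cases y with rfl | rfl <;>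
        rcases zmod2_cases z with rfl | rfl <;>
        simp only [t000, t100, t010, t001, t110, t101, t011, t111] <;>
        clear * - <;> decide +revert
  · subst h
    refine Or.inr ⟨((f1 + c, f2 + c, f3 + a + 1 + c + b'), (a + 1 + c, b', c)), ?_, ?_⟩
    · rintro ⟨x, y, z⟩
      rcases zmod2_cases x with rfl | rfl <;> rcases zmod2_cases y with rfl | rfl <;>
        rcases zmod2_cases z with rfl | rfl <;>
        simp only [h0, f100, f010, f001, f110, f101, f011, f111, dot] <;>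
        clear * - <;> decide +revert
    · rintro ⟨x, y, z⟩
      rcases zmod2_cases x with rfl | rfl <;> rcases zmod2_cases y with rfl | rfl <;>
        rcases zmod2_cases z with rfl | rfl <;>
        simp only [t000, t100, t010, t001, t110, t101, t011, t111] <;>
        clear * - <;> decide +revert

theorem s6 : ∀ a b s t : ZMod 2, a + b + 0 = b + s + t → s + t = a := by decide

theorem comm_f {g : GG} {v : X × X} (h : th v * g = g * th v) (p : X) :
    dot v.1 p + g.f (p + v.2) + g.f (0 + v.2) =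
      g.f p + dot v.1 (g.s.symm p) + dot v.1 (g.s.symm 0) :=
  congrArg (fun x : GG => x.f p) h

theorem comm_s {g : GG} {v : X × X} (h : th v * g = g * th v) (p : X) :
    g.s.symm (p + v.2) = g.s.symm p + v.2 :=
  congrArg (fun x : GG => x.s.symm p) h

theorem cent : CentStmt := by
  intro g h
  have hy := comm_f (h ((0, 1, 0), (0, 0, 0)) (by decide))
  have hz := comm_f (h ((0, 0, 1), (0, 0, 0)) (by decide))
  have hx1 := comm_f (h ((1, 0, 0), (1, 0, 0)) (by decide))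
  have hx2 := comm_f (h ((1, 0, 0), (0, 1, 0)) (by decide))
  have h1 := comm_s (h ((1, 0, 0), (1, 0, 0)) (by decide))
  have h2 := comm_s (h ((1, 0, 0), (0, 1, 0)) (by decide))
  have g0 : g.f (0, 0, 0) = 0 := g.h
  have e0 : (0 : X) = (0, 0, 0) := rfl
  have ep : ∀ p : X, p + (0, 0, 0) = p := fun p => add_zero p
  rw [e0] at hy hz hx1 hx2
  simp only [dot, zero_mul, one_mul, zero_add, add_zero, ep, g0, Prod.mk_add_mk] at hy hz hx1 hx2
  rcases cent_aux g.f (fun p => g.s.symm p) g0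
    (fun p => s6 _ _ _ _ (by simpa using hy p)) (fun p => s6 _ _ _ _ (by simpa using hz p))
    h1 h2 (fun p => (hx1 p).symm) (fun p => (hx2 p).symm) with ⟨v, hv1, hv2⟩ | ⟨v, hv1, hv2⟩
  · left
    exact ⟨v, ext'' hv1 hv2⟩
  · right
    refine ⟨v, ext'' ?_ ?_⟩
    · intro p
      rw [hv1 p]
      show _ = dot v.1 p + ((p + v.2).1 + (p + v.2).2.1) * (p + v.2).2.2
        + ((0 + v.2).1 + (0 + v.2).2.1) * (0 + v.2).2.2
      rw [zero_add]
    · intro p
      rw [hv2 p]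
      rfl

end GG

end Pool.Agent.Helper74Webb
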