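import Pool.Agent.Helper74_Webb.Sub

/-!
# Closed subgroups and maximality in the group `2^7 : S_8`
-/

namespace Pool.Agent.Helper74Webb

namespace GG

/-- The centralizer of `F` is `T ∪ T u`. -/
def CentStmt : Prop := ∀ g : GG, (∀ v, SF v → th v * g = g * th v) →
  (∃ v, g = th v) ∨ ∃ v, g = th v * u

theorem u_comm_of_thu {v w : X × X} (h : th w * (th v * u) = th v * u * th w) :
    th w * u = u * th w := by
  have : th v * (th w * u) = th v * (u * th w) := by
    calc th v * (th w * u) = (th v * th w) * u := by group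
      _ = (th w * th v) * u := by rw [th_comm]
      _ = th w * (th v * u) := by group
      _ = th v * u * th w := h
      _ = th v * (u * th w) := by group
  exact mul_left_cancel this

theorem centT (hc : CentStmt) {g : GG} (h : ∀ v, th v * g = g * th v) : g ∈ gT := by
  rcases hc g (fun v _ => h v) with ⟨v, rfl⟩ | ⟨v, rfl⟩
  · exact ⟨v, trivial, rfl⟩
  · exfalso
    have h1 := h ((0, 0, 0), (0, 0, 1))
    have h2 := u_comm_of_thu h1
    exact absurd ((comm_u_iff _).1 h2) (by decide)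

theorem centU (hc : CentStmt) {g : GG} (h : ∀ v, SF v → th v * g = g * th v)
    (hu : u * g = g * u) : g ∈ gU := by
  rcases hc g h with ⟨v, rfl⟩ | ⟨v, rfl⟩
  · exact th_mem_gU ((comm_u_iff v).1 hu.symm)
  · have h1 : th v * u = u * th v := by
      calc th v * u = (th v * u * u) * u⁻¹ * 1 := by group
        _ = (u * (th v * u)) * u⁻¹ * 1 := by rw [hu]
        _ = u * th v := by group
    exact thu_mem_gU ((comm_u_iff v).1 h1)

theorem eaT : IsEA 2 gT := by
  refine ⟨?_, ?_, ?_⟩
  · intro h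
    have := card_gT
    rw [h] at this
    simp at this
  · rintro _ ⟨v, _, rfl⟩ _ ⟨w, _, rfl⟩
    exact th_comm v w
  · rintro _ ⟨v, _, rfl⟩
    exact th_sq v

theorem gU_comm : ∀ x ∈ gU, ∀ y ∈ gU, x * y = y * x := by
  rintro x ⟨v, hv, hx⟩ y ⟨w, hw, hy⟩
  have cv := (comm_u_iff v).2 hv
  have cw := (comm_u_iff w).2 hw
  have cvw := th_comm v w
  rcases hx with rfl | rfl <;> rcases hy with rfl | rfl
  · exact cvw
  · rw [← mul_assoc, cvw, mul_assoc, cv, mul_assoc]
  · rw [mul_assoc, ← cw, ← mul_assoc, cvw, mul_assoc]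
  · calc th v * u * (th w * u) = th v * (u * th w) * u := by group
      _ = th v * (th w * u) * u := by rw [cw]
      _ = (th v * th w) * u * u := by group
      _ = (th w * th v) * u * u := by rw [cvw]
      _ = th w * (th v * u) * u := by group
      _ = th w * (u * th v) * u := by rw [cv]
      _ = th w * u * (th v * u) := by group

theorem eaU : IsEA 2 gU := by
  refine ⟨?_, gU_comm, ?_⟩
  · intro h
    have := card_gU
    rw [h] at this
    simp at this
  · rintro x ⟨v, hv, hx⟩
    have cv := (comm_u_iff v).2 hv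
    rcases hx with rfl | rfl
    · exact th_sq v
    · rw [pow_two]
      calc th v * u * (th v * u) = th v * (u * th v) * u := by group
        _ = th v * (th v * u) * u := by rw [cv]
        _ = (th v * th v) * (u * u) := by group
        _ = 1 := by rw [u_sq, th_mul, vv, th_zero, mul_one]

theorem jT (hc : CentStmt) : JClosed gT := by
  intro x hx
  apply centT hc
  intro v
  have := hx.2 (th v) (th_sq v) (by
    rintro _ ⟨w, _, rfl⟩
    exact th_comm w v)
  exact this.symm

theorem jU (hc : CentStmt) : JClosed gU := by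
  intro x hx
  apply centU hc
  · intro v hv
    have := hx.2 (th v) (th_sq v) (fun e he => gU_comm e he _ (th_mem_gU hv))
    exact this.symm
  · have := hx.2 u (by rw [pow_two, u_sq]) (fun e he => gU_comm e he _ u_mem_gU)
    exact this.symm

theorem SF_of_mem_gU {v : X × X} (h : th v ∈ gU) : SF v := by
  obtain ⟨w, hw, h | h⟩ := h
  · rwa [← th_inj h]
  · exfalso
    have h2 : u = th w * th v := by
      rw [← h, ← mul_assoc, th_mul, vv, th_zero, one_mul]
    rw [th_mul] at h2
    exact u_ne_th _ h2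

theorem jF (hc : CentStmt) : JClosed gF := by
  intro x hx
  have h1 := jT hc x (hx.mono FT)
  have h2 := jU hc x (hx.mono gF_le_gU)
  obtain ⟨v, _, rfl⟩ := h1
  exact ⟨v, SF_of_mem_gU h2, rfl⟩

theorem SB_M1 : ∀ w, SF w → SF (M1 w) → SB (M1 w) := by decide
theorem SL_of : ∀ v, SA v → SB v → SL v := by decide
theorem SP_of : ∀ v, SL v → SL2 v → SP v := by decide
theorem SQ_of : ∀ v, SL v → SLa v → SQ v := by decide

theorem jB (hc : CentStmt) : JClosed gB := by
  intro x hx
  have h1 := jF hc x (hx.mono BF)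
  have hle : gB ≤ conjSub c1 gF := by
    rw [← c1B]; exact conjSub_mono BF
  have h2 := (jF hc).conj c1 x (hx.mono hle)
  obtain ⟨v, hv, rfl⟩ := h1
  rw [mem_conjSub] at h2
  obtain ⟨w, hw, h3⟩ := h2
  have h4 : th v = c1 * th w * c1⁻¹ := by rw [h3]; group
  rw [c1_conj] at h4
  have h5 := th_inj h4
  subst h5
  refine ⟨_, ?_, rfl⟩
  exact SB_M1 w hw hv

theorem jA (hc : CentStmt) : JClosed gA := by
  intro x hx
  have h1 := jF hc x (hx.mono AF)
  have hle : gA ≤ conjSub c2 gF := by
    rw [← c2A]; exact conjSub_mono AF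
  have h2 := (jF hc).conj c2 x (hx.mono hle)
  obtain ⟨v, hv, rfl⟩ := h1
  rw [mem_conjSub] at h2
  obtain ⟨w, hw, h3⟩ := h2
  have h4 : th v = c2 * th w * c2⁻¹ := by rw [h3]; group
  rcases zmod2_cases w.2.2.1 with h | h
  · rw [c2_conj0 w hw h] at h4
    have h5 := th_inj h4
    refine ⟨v, ?_, rfl⟩
    subst h5
    exact ⟨hw.1, h, by
      have := hw.2
      rw [h, add_zero] at this
      exact this⟩
  · exfalso
    rw [c2_conj1 w hw h] at h4
    have h2 : u = th (M2 w) * th v := by
      rw [h4, ← mul_assoc, th_mul, vv, th_zero, one_mul]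
    rw [th_mul] at h2
    exact u_ne_th _ h2

theorem jL (hc : CentStmt) : JClosed gL := by
  intro x hx
  obtain ⟨v, hv, rfl⟩ := jA hc x (hx.mono LA)
  have h2 := th_mem_mkSub.1 (jB hc _ (hx.mono LB))
  exact ⟨v, SL_of v hv h2, rfl⟩

theorem jL2 (hc : CentStmt) : JClosed gL2 := by
  rw [← c1L]; exact (jL hc).conj c1

theorem jLa (hc : CentStmt) : JClosed gLa := by
  rw [← c3L]; exact (jL hc).conj c3

theorem jP (hc : CentStmt) : JClosed gP := by
  intro x hx
  obtain ⟨v, hv, rfl⟩ := jL hc x (hx.mono PL)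
  have h2 := th_mem_mkSub.1 (jL2 hc _ (hx.mono PL2))
  exact ⟨v, SP_of v hv h2, rfl⟩

theorem QLa : gQ ≤ gLa := mkSub_le (by decide)

theorem jQ (hc : CentStmt) : JClosed gQ := by
  intro x hx
  obtain ⟨v, hv, rfl⟩ := jL hc x (hx.mono QL)
  have h2 := th_mem_mkSub.1 (jLa hc _ (hx.mono QLa))
  exact ⟨v, SQ_of v hv h2, rfl⟩

theorem jQ' (hc : CentStmt) : JClosed gQ' := by
  rw [← c2Q]; exact (jQ hc).conj c2

theorem maxT (hc : CentStmt) : ∀ R, IsEA 2 R → gT ≤ R → R = gT := by
  intro R hR h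
  apply le_antisymm _ h
  intro x hx
  apply centT hc
  intro v
  exact hR.2.1 _ (h ⟨v, trivial, rfl⟩) x hx

theorem maxU (hc : CentStmt) : ∀ R, IsEA 2 R → gU ≤ R → R = gU := by
  intro R hR h
  apply le_antisymm _ h
  intro x hx
  apply centU hc
  · intro v hv
    exact hR.2.1 _ (h (th_mem_gU hv)) x hx
  · exact hR.2.1 _ (h u_mem_gU) x hx

theorem betw (hc : CentStmt) : ∀ R, IsEA 2 R → JClosed R → gF ≤ R → R ≤ gT →
    R = gF ∨ R = gT := by
  intro R hR hj h1 h2
  by_cases hle : R ≤ gF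
  · exact Or.inl (le_antisymm hle h1)
  right
  apply le_antisymm h2
  obtain ⟨x, hx, hxF⟩ := Set.not_subset.1 hle
  obtain ⟨t, _, rfl⟩ := h2 hx
  have ht : ¬ SF t := fun h => hxF ⟨t, h, rfl⟩
  rintro _ ⟨w, _, rfl⟩
  apply hj
  refine ⟨th_sq w, ?_⟩
  intro y _ hy
  rcases hc y (fun v hv => hy _ (h1 ⟨v, hv, rfl⟩)) with ⟨v, rfl⟩ | ⟨v, rfl⟩
  · exact th_comm w v
  · exfalso
    exact ht ((comm_u_iff t).1 (u_comm_of_thu (hy _ hx)))

end GG

end Pool.Agent.Helper74Webb
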