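import Mathlib

/-!
# MP_4b39f0_al : definitions

For a group `G` and a prime `p`: the nontrivial elementary abelian `p`-subgroups (`IsEA p E`),
the poset `Chain p G` of nonempty chains of such subgroups (this is `𝒜_p(G)'`), the orbit set
`OrbitPoset p G` of `G`-conjugacy classes of chains, i.e. `𝒜_p(G)'/G`, with the order
`[c] ≤ [d]` iff `c` is contained in a conjugate of `d` (`OrbitPoset.mk_le_mk_iff`), which is a
partial order for finite `G`.

Everything here concerns the statement; the proof is in the other files of this folder.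
-/

namespace Pool.Agent.Helper74Webb

/-! ## The statement-level definitions -/

/-- `IsEA p E`: the subgroup `E` is a nontrivial elementary abelian `p`-subgroup
(nontrivial, commutative, and `x ^ p = 1` for all its elements). -/
def IsEA {G : Type*} [Group G] (p : ℕ) (E : Subgroup G) : Prop :=
  E ≠ ⊥ ∧ (∀ x ∈ E, ∀ y ∈ E, x * y = y * x) ∧ ∀ x ∈ E, x ^ p = 1

/-- The conjugate subgroup `g E g⁻¹`. -/
def conjSub {G : Type*} [Group G] (g : G) (E : Subgroup G) : Subgroup G :=
  E.map (MulAut.conj g).toMonoidHom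

theorem mem_conjSub {G : Type*} [Group G] {g : G} {E : Subgroup G} {x : G} :
    x ∈ conjSub g E ↔ g⁻¹ * x * g ∈ E := by
  unfold conjSub
  rw [Subgroup.mem_map]
  constructor
  · rintro ⟨y, hy, rfl⟩
    simpa [mul_assoc] using hy
  · intro h
    exact ⟨_, h, by simp [mul_assoc]⟩

theorem conjSub_mono {G : Type*} [Group G] {g : G} {E F : Subgroup G} (h : E ≤ F) :
    conjSub g E ≤ conjSub g F := Subgroup.map_mono h

theorem conjSub_mul {G : Type*} [Group G] (g h : G) (E : Subgroup G) :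
    conjSub (g * h) E = conjSub g (conjSub h E) := by
  ext x
  simp [mem_conjSub, mul_assoc]

@[simp] theorem conjSub_one {G : Type*} [Group G] (E : Subgroup G) :
    conjSub 1 E = E := by
  ext x
  simp [mem_conjSub]

@[simp] theorem conjSub_inv_conjSub {G : Type*} [Group G] (g : G) (E : Subgroup G) :
    conjSub g⁻¹ (conjSub g E) = E := by
  rw [← conjSub_mul]; simp

@[simp] theorem conjSub_conjSub_inv {G : Type*} [Group G] (g : G) (E : Subgroup G) :
    conjSub g (conjSub g⁻¹ E) = E := by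
  rw [← conjSub_mul]; simp

theorem IsEA.conj {G : Type*} [Group G] {p : ℕ} {E : Subgroup G} (h : IsEA p E) (g : G) :
    IsEA p (conjSub g E) := by
  refine ⟨?_, ?_, ?_⟩
  · intro hb
    apply h.1
    have := congrArg (conjSub g⁻¹) hb
    rw [conjSub_inv_conjSub] at this
    rw [this]
    exact Subgroup.map_bot _
  · intro x hx y hy
    rw [mem_conjSub] at hx hy
    have := h.2.1 _ hx _ hy
    have h2 : g⁻¹ * (x * y) * g = g⁻¹ * (y * x) * g := by
      simpa [mul_assoc] using this
    exact mul_left_cancel (mul_right_cancel h2)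
  · intro x hx
    rw [mem_conjSub] at hx
    have h1 := h.2.2 _ hx
    have h2 : (g⁻¹ * x * g) ^ p = g⁻¹ * x ^ p * g := by
      have := conj_pow (i := p) (a := g⁻¹) (b := x)
      simpa using this
    rw [h2] at h1
    have h3 : x ^ p = g * (g⁻¹ * x ^ p * g) * g⁻¹ := by group
    rw [h3, h1]; group

/-- Nonempty chains of nontrivial elementary abelian `p`-subgroups of `G`: the elements of the
poset `𝒜_p(G)'`. (For finite `G` every such chain is finite.) -/
def Chain (p : ℕ) (G : Type*) [Group G] : Type _ :=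
  {c : Set (Subgroup G) // c.Nonempty ∧ IsChain (· ≤ ·) c ∧ ∀ E ∈ c, IsEA p E}

/-- The conjugate `{g E g⁻¹ : E ∈ c}` of a chain. -/
def Chain.conj {G : Type*} [Group G] {p : ℕ} (g : G) (c : Chain p G) : Chain p G :=
  ⟨conjSub g '' c.1, c.2.1.image _,
    Monotone.isChain_image (fun _ _ h => conjSub_mono h) c.2.2.1, by
      rintro _ ⟨E, hE, rfl⟩
      exact (c.2.2.2 E hE).conj g⟩

/-- Conjugacy of chains. -/
def chainSetoid (p : ℕ) (G : Type*) [Group G] : Setoid (Chain p G) where
  r c d := ∃ g : G, c.conj g = d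
  iseqv := by
    refine ⟨fun c => ⟨1, ?_⟩, ?_, ?_⟩
    · apply Subtype.ext
      simp [Chain.conj]
    · rintro c d ⟨g, rfl⟩
      refine ⟨g⁻¹, ?_⟩
      apply Subtype.ext
      simp [Chain.conj, Set.image_image]
    · rintro c d e ⟨g, rfl⟩ ⟨h, rfl⟩
      refine ⟨h * g, ?_⟩
      apply Subtype.ext
      simp [Chain.conj, Set.image_image, conjSub_mul]

/-- The orbit set `𝒜_p(G)'/G`: the `G`-conjugacy classes of nonempty chains of nontrivial
elementary abelian `p`-subgroups of `G`. -/
def OrbitPoset (p : ℕ) (G : Type*) [Group G] : Type _ := Quotient (chainSetoid p G)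

/-- The class of a chain. -/
def OrbitPoset.mk {G : Type*} [Group G] {p : ℕ} (c : Chain p G) : OrbitPoset p G :=
  Quotient.mk (chainSetoid p G) c

theorem OrbitPoset.mk_eq_mk_iff {G : Type*} [Group G] {p : ℕ} {c d : Chain p G} :
    OrbitPoset.mk c = OrbitPoset.mk d ↔ ∃ g : G, c.conj g = d := by
  constructor
  · intro h
    exact Quotient.exact h
  · intro h
    exact Quotient.sound h

theorem OrbitPoset.exists_rep {G : Type*} [Group G] {p : ℕ} (a : OrbitPoset p G) :
    ∃ c : Chain p G, OrbitPoset.mk c = a := Quotient.exists_rep a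

theorem OrbitPoset.mk_conj {G : Type*} [Group G] {p : ℕ} (g : G) (c : Chain p G) :
    OrbitPoset.mk (c.conj g) = OrbitPoset.mk c :=
  (OrbitPoset.mk_eq_mk_iff.2 ⟨g, rfl⟩).symm

/-- The order of the orbit poset: `a ≤ b` iff `a`, `b` have representatives `c ⊆ d`; equivalently,
`[c] ≤ [d]` iff `c` is contained in a conjugate of `d`, see `OrbitPoset.mk_le_mk_iff`. -/
instance {G : Type*} [Group G] {p : ℕ} : LE (OrbitPoset p G) :=
  ⟨fun a b => ∃ c d : Chain p G, OrbitPoset.mk c = a ∧ OrbitPoset.mk d = b ∧ c.1 ⊆ d.1⟩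

theorem OrbitPoset.mk_le_mk_iff {G : Type*} [Group G] {p : ℕ} {c d : Chain p G} :
    OrbitPoset.mk c ≤ OrbitPoset.mk d ↔ ∃ g : G, c.1 ⊆ (d.conj g).1 := by
  constructor
  · rintro ⟨c', d', hc, hd, h⟩
    obtain ⟨g, rfl⟩ := OrbitPoset.mk_eq_mk_iff.1 hc.symm
    obtain ⟨k, rfl⟩ := OrbitPoset.mk_eq_mk_iff.1 hd.symm
    refine ⟨g⁻¹ * k, ?_⟩
    intro E hE
    obtain ⟨R, hR, hRE⟩ := h (Set.mem_image_of_mem _ hE)
    refine ⟨R, hR, ?_⟩
    rw [conjSub_mul, hRE, conjSub_inv_conjSub]
  · rintro ⟨g, h⟩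
    exact ⟨c, d.conj g, rfl, OrbitPoset.mk_conj g d, h⟩

instance {G : Type*} [Group G] [Finite G] {p : ℕ} : Finite (Chain p G) := by
  unfold Chain; infer_instance

instance {G : Type*} [Group G] [Finite G] {p : ℕ} : Finite (OrbitPoset p G) := by
  unfold OrbitPoset; infer_instance

/-- For finite `G` the relation `≤` is a partial order on the orbit set. -/
instance {G : Type*} [Group G] [Finite G] {p : ℕ} : PartialOrder (OrbitPoset p G) where
  le := (· ≤ ·)
  le_refl a := by
    obtain ⟨c, rfl⟩ := a.exists_rep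
    exact ⟨c, c, rfl, rfl, subset_rfl⟩
  le_trans a b c hab hbc := by
    obtain ⟨a, rfl⟩ := a.exists_rep
    obtain ⟨b, rfl⟩ := b.exists_rep
    obtain ⟨c, rfl⟩ := c.exists_rep
    obtain ⟨g, hg⟩ := OrbitPoset.mk_le_mk_iff.1 hab
    obtain ⟨h, hh⟩ := OrbitPoset.mk_le_mk_iff.1 hbc
    refine OrbitPoset.mk_le_mk_iff.2 ⟨g * h, ?_⟩
    intro E hE
    obtain ⟨R, hR, rfl⟩ := hg hE
    obtain ⟨S, hS, rfl⟩ := hh hR
    exact ⟨S, hS, by rw [conjSub_mul]⟩
  le_antisymm a b hab hba := by
    obtain ⟨a, rfl⟩ := a.exists_rep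
    obtain ⟨b, rfl⟩ := b.exists_rep
    obtain ⟨g, hg⟩ := OrbitPoset.mk_le_mk_iff.1 hab
    obtain ⟨h, hh⟩ := OrbitPoset.mk_le_mk_iff.1 hba
    have hfa : a.1.Finite := Set.toFinite _
    have hfb : (b.conj g).1.Finite := Set.toFinite _
    have h1 : (b.conj g).1.ncard ≤ a.1.ncard := by
      calc (b.conj g).1.ncard ≤ b.1.ncard := Set.ncard_image_le (Set.toFinite _)
        _ ≤ (a.conj h).1.ncard := Set.ncard_le_ncard hh (Set.toFinite _)
        _ ≤ a.1.ncard := Set.ncard_image_le (Set.toFinite _)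
    have h2 : a.1 = (b.conj g).1 := Set.eq_of_subset_of_ncard_le hg h1 hfb
    have h3 : a = b.conj g := Subtype.ext h2
    rw [h3, OrbitPoset.mk_conj]

end Pool.Agent.Helper74Webb
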