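import Pool.Agent.Helper74_Webb.Up

/-!
# The down-lemma and the criterion
-/

namespace Pool.Agent.Helper74Webb

open Topology

variable {G : Type} [Group G]

theorem single_le {E : Subgroup G} {hE : IsEA 2 E} {v : Chain 2 G} {V : Subgroup G}
    (hV : V ∈ v.1) (g : G) (h : conjSub g E = V) :
    OrbitPoset.mk (Chain.single E hE) ≤ OrbitPoset.mk v := by
  refine OrbitPoset.mk_le_mk_iff.2 ⟨g⁻¹, ?_⟩
  intro x hx
  have hx' : x = E := hx
  subst hx'
  exact ⟨V, hV, by rw [← h, conjSub_inv_conjSub]⟩

theorem down_vertex {V : Subgroup G} {v : Chain 2 G} (hv : v.1 = {V}) {y : OrbitPoset 2 G}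
    (h : y ≤ OrbitPoset.mk v) : y = OrbitPoset.mk v := by
  obtain ⟨d, rfl, hd⟩ := exists_rep_of_le_mk h
  congr 1
  apply Subtype.ext
  rw [hv] at hd ⊢
  exact (Set.subset_singleton_iff_eq.1 hd).resolve_left d.2.1.ne_empty

namespace Facts

variable (K : Facts G)

/-- The down-lemma. -/
theorem down [Finite G] (i : Idx) (z : OrbitPoset 2 G) (h1 : rho z ≤ OrbitPoset.mk (K.rep i))
    (h2 : ∀ k, lvl k < lvl i → OrbitPoset.mk (K.rep k) ≤ OrbitPoset.mk (K.rep i) →
      OrbitPoset.mk (K.rep k) ≤ rho z) : rho z = OrbitPoset.mk (K.rep i) := by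
  have w : ∀ k, lvl k < lvl i → (K.rep k).1 ⊆ (K.rep i).1 →
      OrbitPoset.mk (K.rep k) ≤ rho z :=
    fun k hk hs => h2 k hk (le_of_subset hs)
  cases i with
  | vP => exact down_vertex (V := K.P) rfl h1
  | vQ => exact down_vertex (V := K.Q) rfl h1
  | vL => exact down_vertex (V := K.L) rfl h1
  | vA => exact down_vertex (V := K.A) rfl h1
  | vB => exact down_vertex (V := K.B) rfl h1
  | vF => exact down_vertex (V := K.F) rfl h1
  | vT => exact down_vertex (V := K.T) rfl h1
  | vU => exact down_vertex (V := K.U) rfl h1
  | c1 =>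
    refine down_lemma h1 ?_
    intro E hE
    have hE' := hE
    simp only [rep, c1, subC, Set.mem_insert_iff, Set.mem_singleton_iff] at hE'
    rcases hE' with rfl | rfl | rfl | rfl
    · exact (single_le (V := K.P) (v := K.vP) rfl 1 (conjSub_one _)).trans
        (w .vP (by decide) (by simp [rep, vP, c1, subC]))
    · exact (single_le (V := K.B) (v := K.vB) rfl 1 (conjSub_one _)).trans
        (w .vB (by decide) (by simp [rep, vB, c1, subC]))
    · exact (single_le (V := K.F) (v := K.vF) rfl 1 (conjSub_one _)).trans
        (w .vF (by decide) (by simp [rep, vF, c1, subC]))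
    · exact (single_le (V := K.T) (v := K.vT) rfl 1 (conjSub_one _)).trans
        (w .vT (by decide) (by simp [rep, vT, c1, subC]))
  | c2 =>
    refine down_lemma h1 ?_
    intro E hE
    have hE' := hE
    simp only [rep, c2, subC, Set.mem_insert_iff, Set.mem_singleton_iff] at hE'
    rcases hE' with rfl | rfl | rfl | rfl
    · exact (single_le (V := K.P) (v := K.vP) rfl 1 (conjSub_one _)).trans
        (w .vP (by decide) (by simp [rep, vP, c2, subC]))
    · exact (single_le (V := K.L) (v := K.vL) rfl 1 (conjSub_one _)).trans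
        (w .vL (by decide) (by simp [rep, vL, c2, subC]))
    · exact (single_le (V := K.B) (v := K.vB) rfl 1 (conjSub_one _)).trans
        (w .vB (by decide) (by simp [rep, vB, c2, subC]))
    · exact (single_le (V := K.T) (v := K.vT) rfl 1 (conjSub_one _)).trans
        (w .vT (by decide) (by simp [rep, vT, c2, subC]))
  | c3 =>
    refine down_lemma h1 ?_
    intro E hE
    have hE' := hE
    simp only [rep, c3, subC, Set.mem_insert_iff, Set.mem_singleton_iff] at hE'
    rcases hE' with rfl | rfl | rfl
    · exact (single_le (V := K.Q) (v := K.vQ) rfl 1 (conjSub_one _)).trans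
        (w .vQ (by decide) (by simp [rep, vQ, c3, subC]))
    · exact (single_le (V := K.A) (v := K.vA) rfl 1 (conjSub_one _)).trans
        (w .vA (by decide) (by simp [rep, vA, c3, subC]))
    · exact (single_le (V := K.U) (v := K.vU) rfl 1 (conjSub_one _)).trans
        (w .vU (by decide) (by simp [rep, vU, c3, subC]))
  | m1 =>
    refine down_lemma h1 ?_
    intro E hE
    have hE' := hE
    simp only [rep, m1, flag5, Set.mem_insert_iff, Set.mem_singleton_iff] at hE'
    rcases hE' with rfl | rfl | rfl | rfl | rfl
    · exact (single_le (V := K.P) (v := K.vP) rfl 1 (conjSub_one _)).trans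
        (w .vP (by decide) (by simp [rep, vP, m1, subC, flag5]))
    · exact (single_le (V := K.L) (v := K.vL) rfl 1 (conjSub_one _)).trans
        (w .vL (by decide) (by simp [rep, vL, m1, subC, flag5]))
    · exact (single_le (V := K.A) (v := K.vA) rfl 1 (conjSub_one _)).trans
        (w .vA (by decide) (by simp [rep, vA, m1, subC, flag5]))
    · exact (single_le (V := K.F) (v := K.vF) rfl 1 (conjSub_one _)).trans
        (w .vF (by decide) (by simp [rep, vF, m1, subC, flag5]))
    · exact (single_le (V := K.T) (v := K.vT) rfl 1 (conjSub_one _)).trans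
        (w .vT (by decide) (by simp [rep, vT, m1, subC, flag5]))
  | m2 =>
    refine down_lemma h1 ?_
    intro E hE
    have hE' := hE
    simp only [rep, m2, flag5, Set.mem_insert_iff, Set.mem_singleton_iff] at hE'
    rcases hE' with rfl | rfl | rfl | rfl | rfl
    · exact (single_le (V := K.P) (v := K.vP) rfl 1 (conjSub_one _)).trans
        (w .vP (by decide) (by simp [rep, vP, m2, subC, flag5]))
    · exact (single_le (V := K.L) (v := K.vL) rfl 1 (conjSub_one _)).trans
        (w .vL (by decide) (by simp [rep, vL, m2, subC, flag5]))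
    · exact (single_le (V := K.B) (v := K.vB) rfl 1 (conjSub_one _)).trans
        (w .vB (by decide) (by simp [rep, vB, m2, subC, flag5]))
    · exact (single_le (V := K.F) (v := K.vF) rfl 1 (conjSub_one _)).trans
        (w .vF (by decide) (by simp [rep, vF, m2, subC, flag5]))
    · exact (single_le (V := K.T) (v := K.vT) rfl 1 (conjSub_one _)).trans
        (w .vT (by decide) (by simp [rep, vT, m2, subC, flag5]))
  | m3 =>
    refine down_lemma h1 ?_
    intro E hE
    have hE' := hE
    simp only [rep, m3, flag5, Set.mem_insert_iff, Set.mem_singleton_iff] at hE'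
    rcases hE' with rfl | rfl | rfl | rfl | rfl
    · exact (single_le (V := K.P) (v := K.vP) rfl 1 (conjSub_one _)).trans
        (w .vP (by decide) (by simp [rep, vP, m3, subC, flag5]))
    · exact (single_le (V := K.L) (v := K.vL) rfl K.g1 K.g1L2).trans
        (h2 .vL (by decide) K.L_le_m3)
    · exact (single_le (V := K.B) (v := K.vB) rfl 1 (conjSub_one _)).trans
        (w .vB (by decide) (by simp [rep, vB, m3, subC, flag5]))
    · exact (single_le (V := K.F) (v := K.vF) rfl 1 (conjSub_one _)).trans
        (w .vF (by decide) (by simp [rep, vF, m3, subC, flag5]))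
    · exact (single_le (V := K.T) (v := K.vT) rfl 1 (conjSub_one _)).trans
        (w .vT (by decide) (by simp [rep, vT, m3, subC, flag5]))
  | m4 =>
    refine down_lemma h1 ?_
    intro E hE
    have hE' := hE
    simp only [rep, m4, flag5, Set.mem_insert_iff, Set.mem_singleton_iff] at hE'
    rcases hE' with rfl | rfl | rfl | rfl | rfl
    · exact (single_le (V := K.Q) (v := K.vQ) rfl 1 (conjSub_one _)).trans
        (w .vQ (by decide) (by simp [rep, vQ, m4, subC, flag5]))
    · exact (single_le (V := K.L) (v := K.vL) rfl 1 (conjSub_one _)).trans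
        (w .vL (by decide) (by simp [rep, vL, m4, subC, flag5]))
    · exact (single_le (V := K.B) (v := K.vB) rfl 1 (conjSub_one _)).trans
        (w .vB (by decide) (by simp [rep, vB, m4, subC, flag5]))
    · exact (single_le (V := K.F) (v := K.vF) rfl 1 (conjSub_one _)).trans
        (w .vF (by decide) (by simp [rep, vF, m4, subC, flag5]))
    · exact (single_le (V := K.T) (v := K.vT) rfl 1 (conjSub_one _)).trans
        (w .vT (by decide) (by simp [rep, vT, m4, subC, flag5]))
  | m5 =>
    refine down_lemma h1 ?_
    intro E hE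
    have hE' := hE
    simp only [rep, m5, flag5, Set.mem_insert_iff, Set.mem_singleton_iff] at hE'
    rcases hE' with rfl | rfl | rfl | rfl | rfl
    · exact (single_le (V := K.Q) (v := K.vQ) rfl K.g2 K.g2Q').trans
        (h2 .vQ (by decide) K.Q_le_m5)
    · exact (single_le (V := K.L) (v := K.vL) rfl K.g3 K.g3La).trans
        (h2 .vL (by decide) K.L_le_m5)
    · exact (single_le (V := K.A) (v := K.vA) rfl 1 (conjSub_one _)).trans
        (w .vA (by decide) (by simp [rep, vA, m5, subC, flag5]))
    · exact (single_le (V := K.F) (v := K.vF) rfl 1 (conjSub_one _)).trans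
        (w .vF (by decide) (by simp [rep, vF, m5, subC, flag5]))
    · exact (single_le (V := K.U) (v := K.vU) rfl 1 (conjSub_one _)).trans
        (w .vU (by decide) (by simp [rep, vU, m5, subC, flag5]))
  | m6 =>
    refine down_lemma h1 ?_
    intro E hE
    have hE' := hE
    simp only [rep, m6, flag5, Set.mem_insert_iff, Set.mem_singleton_iff] at hE'
    rcases hE' with rfl | rfl | rfl | rfl | rfl
    · exact (single_le (V := K.Q) (v := K.vQ) rfl 1 (conjSub_one _)).trans
        (w .vQ (by decide) (by simp [rep, vQ, m6, subC, flag5]))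
    · exact (single_le (V := K.L) (v := K.vL) rfl 1 (conjSub_one _)).trans
        (w .vL (by decide) (by simp [rep, vL, m6, subC, flag5]))
    · exact (single_le (V := K.A) (v := K.vA) rfl 1 (conjSub_one _)).trans
        (w .vA (by decide) (by simp [rep, vA, m6, subC, flag5]))
    · exact (single_le (V := K.F) (v := K.vF) rfl 1 (conjSub_one _)).trans
        (w .vF (by decide) (by simp [rep, vF, m6, subC, flag5]))
    · exact (single_le (V := K.U) (v := K.vU) rfl 1 (conjSub_one _)).trans
        (w .vU (by decide) (by simp [rep, vU, m6, subC, flag5]))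
  | m7 =>
    refine down_lemma h1 ?_
    intro E hE
    have hE' := hE
    simp only [rep, m7, flag5, Set.mem_insert_iff, Set.mem_singleton_iff] at hE'
    rcases hE' with rfl | rfl | rfl | rfl | rfl
    · exact (single_le (V := K.P) (v := K.vP) rfl 1 (conjSub_one _)).trans
        (w .vP (by decide) (by simp [rep, vP, m7, subC, flag5]))
    · exact (single_le (V := K.L) (v := K.vL) rfl 1 (conjSub_one _)).trans
        (w .vL (by decide) (by simp [rep, vL, m7, subC, flag5]))
    · exact (single_le (V := K.B) (v := K.vB) rfl 1 (conjSub_one _)).trans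
        (w .vB (by decide) (by simp [rep, vB, m7, subC, flag5]))
    · exact (single_le (V := K.F) (v := K.vF) rfl 1 (conjSub_one _)).trans
        (w .vF (by decide) (by simp [rep, vF, m7, subC, flag5]))
    · exact (single_le (V := K.U) (v := K.vU) rfl 1 (conjSub_one _)).trans
        (w .vU (by decide) (by simp [rep, vU, m7, subC, flag5]))

/-- A finite group satisfying the `Facts` has a non-contractible orbit poset. -/
theorem not_contractible [Finite G] (K : Facts G) :
    ¬ ContractibleSpace (WithLowerSet (OrbitPoset 2 G)) := by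
  refine not_contractible_of_rigid (fun i => OrbitPoset.mk (K.rep i)) lvl 2
    (by intro i; cases i <;> decide) rho rho_mono (fun i => rho_fix (K.rep_closed i))
    K.up K.down .vP .vL ?_
  intro h
  obtain ⟨g, hg⟩ := OrbitPoset.mk_eq_mk_iff.1 h
  have h1 : (K.vP.conj g).1 = K.vL.1 := congrArg Subtype.val hg
  have h2 : conjSub g K.P ∈ (K.vP.conj g).1 := ⟨K.P, rfl, rfl⟩
  rw [h1] at h2
  have h3 : conjSub g K.P = K.L := h2
  have h4 := card_conjSub g K.P
  rw [h3, K.cP, K.cL] at h4
  omega

end Facts

end Pool.Agent.Helper74Webb
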