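import Pool.Agent.Helper74_Webb.Defs

/-!
# MP_4b39f0_al : the facts about the group that the proof uses
-/

namespace Pool.Agent.Helper74Webb

/-! ## Auxiliary notions used in the proof -/

/-- Membership in the closure `j E` (only used for elementary abelian 2-subgroups): the
involutions (or `1`) commuting with all involutions that centralize `E`. -/
def InJ {G : Type*} [Group G] (E : Subgroup G) (x : G) : Prop :=
  x ^ 2 = 1 ∧ ∀ y : G, y ^ 2 = 1 → (∀ e ∈ E, e * y = y * e) → x * y = y * x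

/-- `E` is `j`-closed. -/
def JClosed {G : Type*} [Group G] (E : Subgroup G) : Prop := ∀ x, InJ E x → x ∈ E

/-- The finitely many facts about the finite group `G` that are used. -/
structure Facts (G : Type) [Group G] where
  (P Q L A B F T U L2 La Q' : Subgroup G)
  -- elementary abelian
  eaT : IsEA 2 T
  eaU : IsEA 2 U
  -- orders
  cP : Nat.card P = 2
  cQ : Nat.card Q = 2
  cQ' : Nat.card Q' = 2
  cL : Nat.card L = 4
  cL2 : Nat.card L2 = 4
  cLa : Nat.card La = 4
  cA : Nat.card A = 8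
  cB : Nat.card B = 8
  cF : Nat.card F = 16
  cU : Nat.card U = 32
  cT : Nat.card T = 64
  -- inclusions
  PL : P ≤ L
  QL : Q ≤ L
  LA : L ≤ A
  LB : L ≤ B
  AF : A ≤ F
  BF : B ≤ F
  FT : F ≤ T
  FU : F ≤ U
  PL2 : P ≤ L2
  L2B : L2 ≤ B
  Q'La : Q' ≤ La
  LaA : La ≤ A
  -- closed subgroups
  jP : JClosed P
  jQ : JClosed Q
  jQ' : JClosed Q'
  jL : JClosed L
  jL2 : JClosed L2
  jLa : JClosed La
  jA : JClosed A
  jB : JClosed B
  jF : JClosed F
  jT : JClosed T
  jU : JClosed U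
  -- maximality
  maxT : ∀ R, IsEA 2 R → T ≤ R → R = T
  maxU : ∀ R, IsEA 2 R → U ≤ R → R = U
  betw : ∀ R, IsEA 2 R → JClosed R → F ≤ R → R ≤ T → R = F ∨ R = T
  -- conjugations
  g1 : G
  g1P : conjSub g1 P = P
  g1L2 : conjSub g1 L2 = L
  g1B : conjSub g1 B = B
  g1T : conjSub g1 T = T
  g2 : G
  g2Q' : conjSub g2 Q' = Q
  g2A : conjSub g2 A = A
  g2U : conjSub g2 U = U
  g3 : G
  g3La : conjSub g3 La = L
  -- non-conjugacies
  N1 : ∀ g, conjSub g P ≠ Q
  N2 : ∀ g, conjSub g A ≠ B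
  N3 : ∀ g, conjSub g L = L2 → conjSub g F ≠ F
  N4 : ∀ g, conjSub g L = La → conjSub g U ≠ U
  N5 : ∀ g, conjSub g Q = Q' → conjSub g F ≠ F

end Pool.Agent.Helper74Webb
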