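import Pool.Agent.Helper74_Webb.Orbit

/-!
# The group `2^7 : S_8`
-/

namespace Pool.Agent.Helper74Webb

/-- The set of 8 points. -/
abbrev X := ZMod 2 × ZMod 2 × ZMod 2

/-- The group of pairs (function `X → 𝔽₂` modulo constants, normalized by `f 0 = 0`;
permutation of `X`). -/
@[ext] structure GG where
  f : X → ZMod 2
  s : Equiv.Perm X
  h : f 0 = 0

namespace GG

instance : DecidableEq GG := fun a b =>
  decidable_of_iff (a.f = b.f ∧ a.s = b.s) (GG.ext_iff).symm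

theorem two (a : ZMod 2) : a + a = 0 := by
  revert a; decide

instance : Mul GG := ⟨fun a b =>
  { f := fun p => a.f p + b.f (a.s.symm p) + b.f (a.s.symm 0)
    s := b.s.trans a.s
    h := by rw [a.h, zero_add]; exact two _ }⟩

instance : One GG := ⟨{ f := fun _ => 0, s := Equiv.refl _, h := rfl }⟩

instance : Inv GG := ⟨fun a =>
  { f := fun p => a.f (a.s p) + a.f (a.s 0)
    s := a.s.symm
    h := two _ }⟩

@[simp] theorem mul_f (a b : GG) (p : X) :
    (a * b).f p = a.f p + b.f (a.s.symm p) + b.f (a.s.symm 0) := rfl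
@[simp] theorem mul_s (a b : GG) (p : X) : (a * b).s p = a.s (b.s p) := rfl
@[simp] theorem mul_symm (a b : GG) (p : X) : (a * b).s.symm p = b.s.symm (a.s.symm p) := rfl
@[simp] theorem one_f (p : X) : (1 : GG).f p = 0 := rfl
@[simp] theorem one_s (p : X) : (1 : GG).s p = p := rfl
@[simp] theorem one_symm (p : X) : (1 : GG).s.symm p = p := rfl
@[simp] theorem inv_f (a : GG) (p : X) : (a⁻¹).f p = a.f (a.s p) + a.f (a.s 0) := rfl
@[simp] theorem inv_s (a : GG) (p : X) : (a⁻¹).s p = a.s.symm p := rfl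
@[simp] theorem inv_symm (a : GG) (p : X) : (a⁻¹).s.symm p = a.s p := rfl

theorem ext' {a b : GG} (h1 : ∀ p, a.f p = b.f p) (h2 : ∀ p, a.s p = b.s p) : a = b :=
  GG.ext (funext h1) (Equiv.ext h2)

theorem ext'' {a b : GG} (h1 : ∀ p, a.f p = b.f p) (h2 : ∀ p, a.s.symm p = b.s.symm p) : a = b :=
  GG.ext (funext h1) (Equiv.symm_bijective.injective (Equiv.ext h2))

instance : Group GG :=
  Group.ofLeftAxioms
    (by
      intro a b c
      apply ext'
      · intro p
        simp only [mul_f, mul_symm]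
        generalize b.f (a.s.symm 0) = t1
        generalize c.f (b.s.symm (a.s.symm 0)) = t2
        generalize c.f (b.s.symm (a.s.symm p)) = t3
        generalize b.f (a.s.symm p) = t4
        generalize a.f p = t5
        generalize c.f (b.s.symm 0) = t6
        revert t1 t2 t3 t4 t5 t6
        decide
      · intro p; rfl)
    (by
      intro a
      apply ext'
      · intro p
        simp [a.h]
      · intro p; rfl)
    (by
      intro a
      apply ext'
      · intro p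
        simp only [mul_f, inv_f, inv_symm, one_f]
        generalize a.f (a.s p) = t1
        generalize a.f (a.s 0) = t2
        revert t1 t2
        decide
      · intro p
        simp)

instance : Finite GG := by
  apply Finite.of_injective (fun a : GG => ((a.f, a.s) : (X → ZMod 2) × Equiv.Perm X))
  intro a b h
  simp only [Prod.mk.injEq] at h
  exact GG.ext h.1 h.2


/-! ### The translation subgroup -/

/-- Translation by `a`. -/
def tr (a : X) : Equiv.Perm X where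
  toFun p := p + a
  invFun p := p + a
  left_inv p := by
    show p + a + a = p
    rw [add_assoc]
    have : a + a = 0 := by revert a; decide
    rw [this, add_zero]
  right_inv p := by
    show p + a + a = p
    rw [add_assoc]
    have : a + a = 0 := by revert a; decide
    rw [this, add_zero]

/-- The linear functional `l`. -/
def dot (l p : X) : ZMod 2 := l.1 * p.1 + l.2.1 * p.2.1 + l.2.2 * p.2.2

theorem dot_add (l p q : X) : dot l (p + q) = dot l p + dot l q := by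
  simp only [dot, Prod.fst_add, Prod.snd_add]; ring

theorem dot_add' (l m p : X) : dot (l + m) p = dot l p + dot m p := by
  simp only [dot, Prod.fst_add, Prod.snd_add]; ring

/-- The element `(v.1, translation by v.2)`. -/
def th (v : X × X) : GG := ⟨fun p => dot v.1 p, tr v.2, by simp [dot]⟩

@[simp] theorem th_f (v : X × X) (p : X) : (th v).f p = dot v.1 p := rfl
@[simp] theorem th_s (v : X × X) (p : X) : (th v).s p = p + v.2 := rfl
@[simp] theorem th_symm (v : X × X) (p : X) : (th v).s.symm p = p + v.2 := rfl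

theorem th_mul (v w : X × X) : th v * th w = th (v + w) := by
  apply ext'
  · intro p
    simp only [mul_f, th_f, th_symm, Prod.fst_add, dot_add, dot_add', zero_add]
    rw [add_assoc, add_assoc, two, add_zero]
  · intro p
    simp only [mul_s, th_s, Prod.snd_add]
    rw [add_assoc, add_comm w.2]

theorem th_zero : th 0 = 1 := by
  apply ext'
  · intro p; simp [dot]
  · intro p; simp

theorem vv (v : X × X) : v + v = 0 := by
  revert v; decide

theorem th_inv (v : X × X) : (th v)⁻¹ = th v := by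
  rw [inv_eq_iff_mul_eq_one, th_mul, vv, th_zero]

theorem th_sq (v : X × X) : th v ^ 2 = 1 := by
  rw [pow_two, th_mul, vv, th_zero]

theorem th_comm (v w : X × X) : th v * th w = th w * th v := by
  rw [th_mul, th_mul, add_comm]

theorem th_inj {v w : X × X} (h : th v = th w) : v = w := by
  have h1 : ∀ p, dot v.1 p = dot w.1 p := fun p => congrArg (fun g : GG => g.f p) h
  have h2 : v.2 = w.2 := by
    have := congrArg (fun g : GG => g.s 0) h
    simpa using this
  have e1 := h1 (1, 0, 0)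
  have e2 := h1 (0, 1, 0)
  have e3 := h1 (0, 0, 1)
  simp [dot] at e1 e2 e3
  exact Prod.ext (Prod.ext e1 (Prod.ext e2 e3)) h2

/-- The subgroup of `T` given by a set of vectors closed under addition. -/
def mkSub (S : X × X → Prop) (h0 : S 0) (hadd : ∀ v w, S v → S w → S (v + w)) : Subgroup GG where
  carrier := {g | ∃ v, S v ∧ th v = g}
  one_mem' := ⟨0, h0, th_zero⟩
  mul_mem' := by
    rintro _ _ ⟨v, hv, rfl⟩ ⟨w, hw, rfl⟩
    exact ⟨v + w, hadd v w hv hw, (th_mul v w).symm⟩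
  inv_mem' := by
    rintro _ ⟨v, hv, rfl⟩
    exact ⟨v, hv, (th_inv v).symm⟩

theorem mem_mkSub {S : X × X → Prop} {h0 : S 0} {hadd : ∀ v w, S v → S w → S (v + w)} {g : GG} :
    g ∈ mkSub S h0 hadd ↔ ∃ v, S v ∧ th v = g := Iff.rfl

theorem th_mem_mkSub {S : X × X → Prop} {h0 : S 0} {hadd : ∀ v w, S v → S w → S (v + w)}
    {v : X × X} : th v ∈ mkSub S h0 hadd ↔ S v := by
  rw [mem_mkSub]
  constructor
  · rintro ⟨w, hw, h⟩
    rwa [← th_inj h]
  · intro h
    exact ⟨v, h, rfl⟩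

theorem card_mkSub (S : X × X → Prop) [DecidablePred S] {h0 : S 0}
    {hadd : ∀ v w, S v → S w → S (v + w)} :
    Nat.card (mkSub S h0 hadd) = (Finset.univ.filter S).card := by
  have e : {v // S v} ≃ mkSub S h0 hadd :=
    { toFun := fun v => ⟨th v.1, v.1, v.2, rfl⟩
      invFun := fun g => ⟨g.2.choose, g.2.choose_spec.1⟩
      left_inv := by
        intro v
        apply Subtype.ext
        have := (⟨v.1, v.2, rfl⟩ : ∃ w, S w ∧ th w = th v.1).choose_spec.2
        exact th_inj this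
      right_inv := by
        intro g
        apply Subtype.ext
        exact g.2.choose_spec.2 }
  rw [← Nat.card_congr e, Nat.card_eq_fintype_card, Fintype.card_subtype]

/-! ### The special subgroups of `T` -/

abbrev SF (v : X × X) : Prop := v.2.2.2 = 0 ∧ v.1.1 = v.2.1 + v.2.2.1
abbrev SA (v : X × X) : Prop := v.2.2.2 = 0 ∧ v.2.2.1 = 0 ∧ v.1.1 = v.2.1
abbrev SB (v : X × X) : Prop := v.2.2.2 = 0 ∧ v.1.1 = v.2.1 + v.2.2.1 ∧ v.1.2.1 = v.2.2.1
abbrev SL (v : X × X) : Prop := v.2.2.2 = 0 ∧ v.2.2.1 = 0 ∧ v.1.1 = v.2.1 ∧ v.1.2.1 = 0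
abbrev SL2 (v : X × X) : Prop := v.2.2.2 = 0 ∧ v.2.1 = 0 ∧ v.1.1 = v.2.2.1 ∧ v.1.2.1 = v.2.2.1
abbrev SLa (v : X × X) : Prop := v.2.2.2 = 0 ∧ v.2.2.1 = 0 ∧ v.1.1 = v.2.1 ∧ v.1.2.2 = 0
abbrev SP (v : X × X) : Prop := v.2.2.2 = 0 ∧ v.2.2.1 = 0 ∧ v.2.1 = 0 ∧ v.1.1 = 0 ∧ v.1.2.1 = 0
abbrev SQ (v : X × X) : Prop :=
  v.2.2.2 = 0 ∧ v.2.2.1 = 0 ∧ v.1.1 = v.2.1 ∧ v.1.2.1 = 0 ∧ v.1.2.2 = 0
abbrev SQ' (v : X × X) : Prop :=
  v.2.2.2 = 0 ∧ v.2.2.1 = 0 ∧ v.1.1 = v.2.1 ∧ v.1.2.1 = v.2.1 ∧ v.1.2.2 = 0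

def gT : Subgroup GG := mkSub (fun _ => True) trivial (fun _ _ _ _ => trivial)
def gF : Subgroup GG := mkSub SF (by decide) (by
  rintro ⟨⟨a, b, c⟩, ⟨d, e, f⟩⟩ ⟨⟨a', b', c'⟩, ⟨d', e', f'⟩⟩ h h'
  simp only [SF, Prod.fst_add, Prod.snd_add] at *
  grind)
def gA : Subgroup GG := mkSub SA (by decide) (by
  rintro ⟨⟨a, b, c⟩, ⟨d, e, f⟩⟩ ⟨⟨a', b', c'⟩, ⟨d', e', f'⟩⟩ h h'
  simp only [SA, Prod.fst_add, Prod.snd_add] at *
  grind)
def gB : Subgroup GG := mkSub SB (by decide) (by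
  rintro ⟨⟨a, b, c⟩, ⟨d, e, f⟩⟩ ⟨⟨a', b', c'⟩, ⟨d', e', f'⟩⟩ h h'
  simp only [SB, Prod.fst_add, Prod.snd_add] at *
  grind)
def gL : Subgroup GG := mkSub SL (by decide) (by
  rintro ⟨⟨a, b, c⟩, ⟨d, e, f⟩⟩ ⟨⟨a', b', c'⟩, ⟨d', e', f'⟩⟩ h h'
  simp only [SL, Prod.fst_add, Prod.snd_add] at *
  grind)
def gL2 : Subgroup GG := mkSub SL2 (by decide) (by
  rintro ⟨⟨a, b, c⟩, ⟨d, e, f⟩⟩ ⟨⟨a', b', c'⟩, ⟨d', e', f'⟩⟩ h h'
  simp only [SL2, Prod.fst_add, Prod.snd_add] at *
  grind)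
def gLa : Subgroup GG := mkSub SLa (by decide) (by
  rintro ⟨⟨a, b, c⟩, ⟨d, e, f⟩⟩ ⟨⟨a', b', c'⟩, ⟨d', e', f'⟩⟩ h h'
  simp only [SLa, Prod.fst_add, Prod.snd_add] at *
  grind)
def gP : Subgroup GG := mkSub SP (by decide) (by
  rintro ⟨⟨a, b, c⟩, ⟨d, e, f⟩⟩ ⟨⟨a', b', c'⟩, ⟨d', e', f'⟩⟩ h h'
  simp only [SP, Prod.fst_add, Prod.snd_add] at *
  grind)
def gQ : Subgroup GG := mkSub SQ (by decide) (by
  rintro ⟨⟨a, b, c⟩, ⟨d, e, f⟩⟩ ⟨⟨a', b', c'⟩, ⟨d', e', f'⟩⟩ h h'
  simp only [SQ, Prod.fst_add, Prod.snd_add] at *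
  grind)
def gQ' : Subgroup GG := mkSub SQ' (by decide) (by
  rintro ⟨⟨a, b, c⟩, ⟨d, e, f⟩⟩ ⟨⟨a', b', c'⟩, ⟨d', e', f'⟩⟩ h h'
  simp only [SQ', Prod.fst_add, Prod.snd_add] at *
  grind)

theorem card_gT : Nat.card gT = 64 := by
  unfold gT; rw [card_mkSub]; rfl
theorem card_gF : Nat.card gF = 16 := by
  unfold gF; rw [card_mkSub]; rfl
theorem card_gA : Nat.card gA = 8 := by
  unfold gA; rw [card_mkSub]; rfl
theorem card_gB : Nat.card gB = 8 := by
  unfold gB; rw [card_mkSub]; rfl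
theorem card_gL : Nat.card gL = 4 := by
  unfold gL; rw [card_mkSub]; rfl
theorem card_gL2 : Nat.card gL2 = 4 := by
  unfold gL2; rw [card_mkSub]; rfl
theorem card_gLa : Nat.card gLa = 4 := by
  unfold gLa; rw [card_mkSub]; rfl
theorem card_gP : Nat.card gP = 2 := by
  unfold gP; rw [card_mkSub]; rfl
theorem card_gQ : Nat.card gQ = 2 := by
  unfold gQ; rw [card_mkSub]; rfl
theorem card_gQ' : Nat.card gQ' = 2 := by
  unfold gQ'; rw [card_mkSub]; rfl

end GG

end Pool.Agent.Helper74Webb
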