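import Pool.Agent.Helper74_Webb.Cent

/-!
# Non-conjugacies
-/

namespace Pool.Agent.Helper74Webb

namespace GG

/-- The commutator form of lifts to `2 ≀ S_8`. -/
def beta (a b : GG) : ZMod 2 := b.f (a.s.symm 0) + a.f (b.s.symm 0)

theorem beta_conj (g a b : GG) (h : a * b = b * a) :
    beta (g * a * g⁻¹) (g * b * g⁻¹) = beta a b := by
  have h1 : ∀ p, a.f p + b.f (a.s.symm p) + b.f (a.s.symm 0) =
      b.f p + a.f (b.s.symm p) + a.f (b.s.symm 0) := fun p => congrArg (fun x : GG => x.f p) h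
  have h2 : ∀ p, b.s.symm (a.s.symm p) = a.s.symm (b.s.symm p) :=
    fun p => congrArg (fun x : GG => x.s.symm p) h
  have h' : (g * a * g⁻¹) * (g * b * g⁻¹) = (g * b * g⁻¹) * (g * a * g⁻¹) := by
    calc (g * a * g⁻¹) * (g * b * g⁻¹) = g * (a * b) * g⁻¹ := by group
      _ = g * (b * a) * g⁻¹ := by rw [h]
      _ = (g * b * g⁻¹) * (g * a * g⁻¹) := by group
  have h3 : (g * a * g⁻¹).f (g.s 0) + (g * b * g⁻¹).f ((g * a * g⁻¹).s.symm (g.s 0)) +
      (g * b * g⁻¹).f ((g * a * g⁻¹).s.symm 0) =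
      (g * b * g⁻¹).f (g.s 0) + (g * a * g⁻¹).f ((g * b * g⁻¹).s.symm (g.s 0)) +
      (g * a * g⁻¹).f ((g * b * g⁻¹).s.symm 0) := congrArg (fun x : GG => x.f (g.s 0)) h'
  have h4 := h1 0
  have h5 := h2 0
  unfold beta
  simp only [mul_f, mul_symm, inv_f, inv_symm, Equiv.symm_apply_apply, h5] at h3 h4 ⊢
  grind

theorem beta_th (v w : X × X) : beta (th v) (th w) = dot w.1 v.2 + dot v.1 w.2 := by
  simp [beta]

theorem conj_mem {g : GG} {E E' : Subgroup GG} (h : conjSub g E = E') {x : GG} (hx : x ∈ E) :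
    g * x * g⁻¹ ∈ E' := by
  rw [← h, mem_conjSub]
  have e : g⁻¹ * (g * x * g⁻¹) * g = x := by group
  rwa [e]

theorem conj_mem' {g : GG} {E E' : Subgroup GG} (h : conjSub g E = E') {y : GG} (hy : y ∈ E') :
    ∃ x ∈ E, g * x * g⁻¹ = y := by
  rw [← h, mem_conjSub] at hy
  exact ⟨_, hy, by group⟩

/-- Conjugation preserves the kernel of the map to `S_8`. -/
theorem conj_tr {g : GG} {v w : X × X} (h : th w = g * th v * g⁻¹) : w.2 = 0 ↔ v.2 = 0 := by
  have h0 : ∀ p, p + w.2 = g.s (g.s.symm p + v.2) := fun p =>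
    congrArg (fun x : GG => x.s p) h
  constructor
  · intro hw
    have h1 := h0 (g.s 0)
    rw [hw, add_zero, Equiv.symm_apply_apply, zero_add] at h1
    exact (g.s.injective h1).symm
  · intro hv
    have h1 := h0 0
    rw [hv, add_zero, Equiv.apply_symm_apply, zero_add] at h1
    exact h1

theorem N1 (g : GG) : conjSub g gP ≠ gQ := by
  intro h
  obtain ⟨x, ⟨v, hv, rfl⟩, hx⟩ := conj_mem' h (y := th ((1, 0, 0), (1, 0, 0)))
    ⟨_, by decide, rfl⟩
  have hv2 : v.2 = 0 := by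
    obtain ⟨h1, h2, h3, _⟩ := hv
    exact Prod.ext h3 (Prod.ext h2 h1)
  have := (conj_tr hx.symm).2 hv2
  revert this
  decide

theorem SB_V : ∀ w, SB w → w.2 = 0 → w = 0 ∨ w = ((0, 0, 1), 0) := by decide

theorem N2 (g : GG) : conjSub g gA ≠ gB := by
  intro h
  obtain ⟨w1, hw1, e1⟩ := conj_mem h (x := th ((0, 1, 0), 0)) ⟨_, by decide, rfl⟩
  obtain ⟨w2, hw2, e2⟩ := conj_mem h (x := th ((0, 0, 1), 0)) ⟨_, by decide, rfl⟩
  have k1 := SB_V w1 hw1 ((conj_tr e1).2 rfl)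
  have k2 := SB_V w2 hw2 ((conj_tr e2).2 rfl)
  have n : ∀ v w : X × X, th w = g * th v * g⁻¹ → w = 0 → v = 0 := by
    intro v w e hw
    rw [hw, th_zero] at e
    apply th_inj
    rw [th_zero]
    calc th v = g⁻¹ * (g * th v * g⁻¹) * g := by group
      _ = 1 := by rw [← e]; group
  have m1 : w1 ≠ 0 := fun hw => absurd (n _ _ e1 hw) (by decide)
  have m2 : w2 ≠ 0 := fun hw => absurd (n _ _ e2 hw) (by decide)
  have l1 := k1.resolve_left m1
  have l2 := k2.resolve_left m2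
  rw [l1] at e1
  rw [l2] at e2
  have e3 : g * th ((0, 1, 0), 0) * g⁻¹ = g * th ((0, 0, 1), 0) * g⁻¹ := e1.symm.trans e2
  have e4 := th_inj (mul_left_cancel (mul_right_cancel e3))
  revert e4
  decide

theorem SQ'_el : ∀ w, SQ' w → w = 0 ∨ w = ((1, 1, 0), (1, 0, 0)) := by decide

theorem beta_Q'F : ∀ w', SF w' → dot w'.1 (1, 0, 0) + dot (1, 1, 0) w'.2 = 0 := by decide

theorem beta_QF (w : X × X) (hw : SQ' w) (w' : X × X) (hw' : SF w') :
    dot w'.1 w.2 + dot w.1 w'.2 = 0 := by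
  rcases SQ'_el w hw with rfl | rfl
  · simp [dot]
  · exact beta_Q'F w' hw'

theorem N5 (g : GG) (h1 : conjSub g gQ = gQ') : conjSub g gF ≠ gF := by
  intro h2
  obtain ⟨w, hw, e⟩ := conj_mem h1 (x := th ((1, 0, 0), (1, 0, 0))) ⟨_, by decide, rfl⟩
  obtain ⟨w', hw', e'⟩ := conj_mem h2 (x := th ((1, 0, 0), (0, 1, 0))) ⟨_, by decide, rfl⟩
  have h3 := beta_conj g (th ((1, 0, 0), (1, 0, 0))) (th ((1, 0, 0), (0, 1, 0))) (th_comm _ _)
  rw [← e, ← e', beta_th, beta_th, beta_QF w hw w' hw'] at h3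
  revert h3
  decide

theorem SLa_V : ∀ w, SLa w → w.2 = 0 → w = 0 ∨ w = ((0, 1, 0), 0) := by decide

theorem N4 (g : GG) (h1 : conjSub g gL = gLa) : conjSub g gU ≠ gU := by
  intro h2
  obtain ⟨w, hw, e⟩ := conj_mem h1 (x := th ((0, 0, 1), 0)) ⟨_, by decide, rfl⟩
  have k := SLa_V w hw ((conj_tr e).2 rfl)
  have hne : w ≠ 0 := by
    intro hw0
    rw [hw0, th_zero] at e
    have : th ((0, 0, 1), 0) = th 0 := by
      rw [th_zero]
      calc th ((0, 0, 1), 0) = g⁻¹ * (g * th ((0, 0, 1), 0) * g⁻¹) * g := by group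
        _ = 1 := by rw [← e]; group
    have := th_inj this
    revert this
    decide
  have k' := k.resolve_left hne
  rw [k'] at e
  obtain ⟨b, hb, eb⟩ := conj_mem' h2 (y := th ((1, 0, 0), (0, 1, 0))) (th_mem_gU (by decide))
  have hc : th ((0, 0, 1), 0) * b = b * th ((0, 0, 1), 0) :=
    gU_comm _ (th_mem_gU (by decide)) b hb
  have h3 := beta_conj g _ b hc
  rw [← e, eb, beta_th] at h3
  have h4 : beta (th ((0, 0, 1), 0)) b = 0 := by
    obtain ⟨v, hv, hb | hb⟩ := hb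
    · rw [← hb, beta_th]
      show dot v.1 0 + dot (0, 0, 1) v.2 = 0
      have := hv.1
      simp [dot, this]
    · rw [← hb]
      have := hv.1
      show (th v * u).f (0 + 0) + dot (0, 0, 1) ((th v * u).s.symm 0) = 0
      rw [add_zero, (th v * u).h]
      simp [dot, this]
  rw [h4] at h3
  revert h3
  decide

theorem beta_aF : ∀ v, SF v → dot v.1 (1, 0, 0) + dot (1, 1, 0) v.2 = 0 := by decide

theorem SL2_V : ∀ w, SL2 w → w.2 ≠ 0 → w.2.2.1 = 1 := by decide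

theorem N3 (g : GG) (h1 : conjSub g gL = gL2) : conjSub g gF ≠ gF := by
  intro h2
  obtain ⟨w, hw, e⟩ := conj_mem h1 (x := th ((1, 0, 0), (1, 0, 0))) ⟨_, by decide, rfl⟩
  obtain ⟨w', hw', e'⟩ := conj_mem h2 (x := th ((0, 1, 0), 0)) ⟨_, by decide, rfl⟩
  obtain ⟨_, ⟨v, hv, rfl⟩, ey⟩ := conj_mem' h2 (y := th ((0, 1, 0), 0)) ⟨_, by decide, rfl⟩
  have hw2 : w.2 ≠ 0 := by
    intro hw0
    have := (conj_tr e).1 hw0
    revert this
    decide
  have hw'2 : w'.2 = 0 := (conj_tr e').2 rfl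
  have h3 := beta_conj g (th ((1, 1, 0), (1, 0, 0))) (th v) (th_comm _ _)
  have e3 : g * th ((1, 1, 0), (1, 0, 0)) * g⁻¹ = th (w + w') := by
    have : (((1, 1, 0), (1, 0, 0)) : X × X) = ((1, 0, 0), (1, 0, 0)) + ((0, 1, 0), 0) := by decide
    rw [this, ← th_mul, ← th_mul, e, e']
    group
  rw [e3, ey, beta_th, beta_th, beta_aF v hv] at h3
  have h4 := SL2_V w hw hw2
  have h5 : dot (0, 1, 0) (w + w').2 = 1 := by
    rw [Prod.snd_add, hw'2, add_zero]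
    simp [dot, h4]
  have h6 : dot (w + w').1 0 = 0 := by simp [dot]
  change dot (0, 1, 0) (w + w').2 + dot (w + w').1 0 = 0 at h3
  rw [h5, h6] at h3
  revert h3
  decide

end GG

/-- The group `2^7 : S_8` satisfies the facts. -/
def factsGG : Facts GG where
  P := GG.gP
  Q := GG.gQ
  L := GG.gL
  A := GG.gA
  B := GG.gB
  F := GG.gF
  T := GG.gT
  U := GG.gU
  L2 := GG.gL2
  La := GG.gLa
  Q' := GG.gQ'
  eaT := GG.eaT
  eaU := GG.eaU
  cP := GG.card_gP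
  cQ := GG.card_gQ
  cQ' := GG.card_gQ'
  cL := GG.card_gL
  cL2 := GG.card_gL2
  cLa := GG.card_gLa
  cA := GG.card_gA
  cB := GG.card_gB
  cF := GG.card_gF
  cU := GG.card_gU
  cT := GG.card_gT
  PL := GG.PL
  QL := GG.QL
  LA := GG.LA
  LB := GG.LB
  AF := GG.AF
  BF := GG.BF
  FT := GG.FT
  FU := GG.gF_le_gU
  PL2 := GG.PL2
  L2B := GG.L2B
  Q'La := GG.Q'La
  LaA := GG.LaA
  jP := GG.jP GG.cent
  jQ := GG.jQ GG.cent
  jQ' := GG.jQ' GG.cent
  jL := GG.jL GG.cent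
  jL2 := GG.jL2 GG.cent
  jLa := GG.jLa GG.cent
  jA := GG.jA GG.cent
  jB := GG.jB GG.cent
  jF := GG.jF GG.cent
  jT := GG.jT GG.cent
  jU := GG.jU GG.cent
  maxT := GG.maxT GG.cent
  maxU := GG.maxU GG.cent
  betw := GG.betw GG.cent
  g1 := GG.c1
  g1P := GG.c1P
  g1L2 := GG.c1L2
  g1B := GG.c1B
  g1T := GG.c1T
  g2 := GG.c2
  g2Q' := GG.c2Q'
  g2A := GG.c2A
  g2U := GG.c2U
  g3 := GG.c3
  g3La := GG.c3La
  N1 := GG.N1
  N2 := GG.N2
  N3 := GG.N3
  N4 := GG.N4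
  N5 := GG.N5

end Pool.Agent.Helper74Webb
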