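import Mathlib

/-!
# A criterion for non-contractibility of a finite (Alexandrov) space

`Z` is a finite preorder, the open sets are the lower sets. If a property of self maps of `Z` is
invariant under comparability of monotone maps, holds for the identity and fails for the constant
maps, then `Z` is not contractible.
-/

namespace Pool.Agent.Helper74Webb

open Topology

theorem not_contractible_of_invariant {Z : Type*} [Preorder Z] [Finite Z]
    (S : (Z → Z) → Prop) (hid : S id)
    (hinv : ∀ f g : Z → Z, Monotone f → Monotone g → (∀ x, f x ≤ g x) → (S f ↔ S g))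
    (hconst : ∀ z, ¬ S (fun _ => z)) :
    ¬ ContractibleSpace (WithLowerSet Z) := by
  intro hcon
  obtain ⟨y, ⟨H⟩⟩ := id_nullhomotopic (WithLowerSet Z)
  have : Finite (WithLowerSet Z) := ‹Finite Z›
  have hmono : ∀ t, Monotone (fun x : Z => (H (t, x) : Z)) := by
    intro t
    have hc : Continuous (fun x : WithLowerSet Z => H (t, x)) := by fun_prop
    exact (Topology.IsLowerSet.monotone_iff_continuous (α := WithLowerSet Z)
      (β := WithLowerSet Z)).2 hc
  have hloc : ∀ t₀ : unitInterval, ∀ᶠ t in nhds t₀, ∀ x : Z, (H (t, x) : Z) ≤ H (t₀, x) := by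
    intro t₀
    rw [Filter.eventually_all]
    intro x
    have hopen : IsOpen {w : WithLowerSet Z | w ≤ H (t₀, x)} := by
      rw [Topology.IsLowerSet.isOpen_iff_isLowerSet]
      exact isLowerSet_Iic _
    have hc : Continuous (fun t : unitInterval => H (t, (x : WithLowerSet Z))) := by fun_prop
    exact (hopen.preimage hc).mem_nhds (le_refl _)
  have hloc2 : ∀ t₀ : unitInterval, ∀ᶠ t in nhds t₀,
      (S (fun x : Z => H (t, x)) ↔ S (fun x : Z => H (t₀, x))) := by
    intro t₀
    filter_upwards [hloc t₀] with t ht
    exact hinv _ _ (hmono t) (hmono t₀) ht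
  have hclopen : IsClopen {t : unitInterval | S (fun x : Z => H (t, x))} := by
    constructor
    · rw [← isOpen_compl_iff, isOpen_iff_mem_nhds]
      intro t₀ ht₀
      filter_upwards [hloc2 t₀] with t ht
      simp only [Set.mem_compl_iff, Set.mem_ofPred_eq] at ht₀ ⊢
      rwa [ht]
    · rw [isOpen_iff_mem_nhds]
      intro t₀ ht₀
      filter_upwards [hloc2 t₀] with t ht
      simp only [Set.mem_ofPred_eq] at ht₀ ⊢
      rwa [ht]
  have h0 : S (fun x : Z => H (0, x)) := by
    have : (fun x : Z => (H (0, x) : Z)) = id := by
      funext x
      exact H.apply_zero x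
    rw [this]; exact hid
  have h1 : ¬ S (fun x : Z => H (1, x)) := by
    have : (fun x : Z => (H (1, x) : Z)) = fun _ => y := by
      funext x
      exact H.apply_one x
    rw [this]; exact hconst y
  rcases isClopen_iff.1 hclopen with h | h
  · have : (0 : unitInterval) ∈ {t : unitInterval | S (fun x : Z => H (t, x))} := h0
    rw [h] at this
    exact this
  · have : (1 : unitInterval) ∈ {t : unitInterval | S (fun x : Z => H (t, x))} := by
      rw [h]; trivial
    exact h1 this

/-- Abstract rigidity: `C : ι → Z` a finite family, `lvl` a level function, `ρ` a monotone map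
which fixes the `C i`. -/
theorem not_contractible_of_rigid {Z : Type*} [PartialOrder Z] [Finite Z] {ι : Type*}
    (C : ι → Z) (lvl : ι → ℕ) (N : ℕ) (hN : ∀ i, lvl i ≤ N)
    (ρ : Z → Z) (hρ : Monotone ρ) (hfix : ∀ i, ρ (C i) = C i)
    (hup : ∀ i z, C i ≤ ρ z → (∀ k, lvl i < lvl k → C i ≤ C k → ρ z ≤ C k) → ρ z = C i)
    (hdown : ∀ i z, ρ z ≤ C i → (∀ k, lvl k < lvl i → C k ≤ C i → C k ≤ ρ z) → ρ z = C i)
    (i₁ i₂ : ι) (hne : C i₁ ≠ C i₂) :
    ¬ ContractibleSpace (WithLowerSet Z) := by
  apply not_contractible_of_invariant (fun f => ∀ i, ρ (f (C i)) = C i)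
  · intro i; exact hfix i
  · intro f g hf hg hfg
    constructor
    · intro h
      -- downward induction on the level
      have key : ∀ n, ∀ i, N - lvl i ≤ n → ρ (g (C i)) = C i := by
        intro n
        induction n with
        | zero =>
          intro i hi
          apply hup
          · calc C i = ρ (f (C i)) := (h i).symm
              _ ≤ ρ (g (C i)) := hρ (hfg _)
          · intro k hk
            have := hN k
            omega
        | succ n ih =>
          intro i hi
          apply hup
          · calc C i = ρ (f (C i)) := (h i).symm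
              _ ≤ ρ (g (C i)) := hρ (hfg _)
          · intro k hk hik
            have hk' : ρ (g (C k)) = C k := ih k (by have := hN k; omega)
            calc ρ (g (C i)) ≤ ρ (g (C k)) := hρ (hg hik)
              _ = C k := hk'
      intro i
      exact key _ i le_rfl
    · intro h
      have key : ∀ n, ∀ i, lvl i ≤ n → ρ (f (C i)) = C i := by
        intro n
        induction n with
        | zero =>
          intro i hi
          apply hdown
          · calc ρ (f (C i)) ≤ ρ (g (C i)) := hρ (hfg _)
              _ = C i := h i
          · intro k hk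
            omega
        | succ n ih =>
          intro i hi
          apply hdown
          · calc ρ (f (C i)) ≤ ρ (g (C i)) := hρ (hfg _)
              _ = C i := h i
          · intro k hk hik
            have hk' : ρ (f (C k)) = C k := ih k (by omega)
            calc C k = ρ (f (C k)) := hk'.symm
              _ ≤ ρ (f (C i)) := hρ (hf hik)
      intro i
      exact key _ i le_rfl
  · intro z hz
    exact hne ((hz i₁).symm.trans (hz i₂))

end Pool.Agent.Helper74Webb
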