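import Pool.Agent.Helper74_Webb.Facts
import Pool.Agent.Helper74_Webb.Top

/-!
# The closure operator on elementary abelian 2-subgroups and its effect on the orbit poset
-/

namespace Pool.Agent.Helper74Webb

variable {G : Type*} [Group G]

theorem InJ.mono {E F : Subgroup G} (h : E ≤ F) {x : G} (hx : InJ E x) : InJ F x :=
  ⟨hx.1, fun y hy hc => hx.2 y hy fun e he => hc e (h he)⟩

theorem InJ.conj {E : Subgroup G} {x : G} (g : G) (hx : InJ E x) :
    InJ (conjSub g E) (g * x * g⁻¹) := by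
  refine ⟨?_, ?_⟩
  · rw [conj_pow, hx.1]; group
  · intro y hy hc
    have h1 : (g⁻¹ * y * g) ^ 2 = 1 := by
      have := conj_pow (i := 2) (a := g⁻¹) (b := y)
      rw [inv_inv] at this
      rw [this, hy]; group
    have h2 : ∀ e ∈ E, e * (g⁻¹ * y * g) = (g⁻¹ * y * g) * e := by
      intro e he
      have h3 := hc (g * e * g⁻¹) (by
        rw [mem_conjSub]
        have : g⁻¹ * (g * e * g⁻¹) * g = e := by group
        rw [this]; exact he)
      calc e * (g⁻¹ * y * g) = g⁻¹ * ((g * e * g⁻¹) * y) * g := by group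
        _ = g⁻¹ * (y * (g * e * g⁻¹)) * g := by rw [h3]
        _ = (g⁻¹ * y * g) * e := by group
    have h3 := hx.2 _ h1 h2
    calc g * x * g⁻¹ * y = g * (x * (g⁻¹ * y * g)) * g⁻¹ := by group
      _ = g * ((g⁻¹ * y * g) * x) * g⁻¹ := by rw [h3]
      _ = y * (g * x * g⁻¹) := by group

theorem JClosed.conj {E : Subgroup G} (h : JClosed E) (g : G) : JClosed (conjSub g E) := by
  intro x hx
  have h1 := hx.conj g⁻¹
  rw [conjSub_inv_conjSub, inv_inv] at h1
  rw [mem_conjSub]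
  exact h _ h1

/-- An element of an elementary abelian group commutes with `InJ` elements. -/
theorem InJ.comm {E : Subgroup G} (hE : IsEA 2 E) {x : G} (hx : InJ E x) {e : G} (he : e ∈ E) :
    e * x = x * e := by
  have := hx.2 e (hE.2.2 e he) (fun f hf => hE.2.1 f hf e he)
  exact this.symm

theorem InJ.of_mem {E : Subgroup G} (hE : IsEA 2 E) {x : G} (hx : x ∈ E) : InJ E x :=
  ⟨hE.2.2 x hx, fun y _ hc => hc x hx⟩

/-- The closure of an elementary abelian subgroup. -/
def jEA (E : Subgroup G) (hE : IsEA 2 E) : Subgroup G where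
  carrier := {x | InJ E x}
  one_mem' := ⟨by simp, fun _ _ _ => by simp⟩
  mul_mem' := by
    rintro x y hx hy
    have hxy : x * y = y * x := by
      exact hx.2 y hy.1 (fun e he => hy.comm hE he)
    refine ⟨?_, ?_⟩
    · rw [pow_two]
      calc x * y * (x * y) = x * (y * x) * y := by group
        _ = x * (x * y) * y := by rw [hxy]
        _ = x ^ 2 * y ^ 2 := by simp only [pow_two, mul_assoc]
        _ = 1 := by rw [hx.1, hy.1]; simp
    · intro z hz hc
      have h1 := hx.2 z hz hc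
      have h2 := hy.2 z hz hc
      calc x * y * z = x * (y * z) := by group
        _ = x * z * y := by rw [h2]; group
        _ = z * (x * y) := by rw [h1]; group
  inv_mem' := by
    intro x hx
    have h : x⁻¹ = x := by
      have := hx.1
      rw [pow_two] at this
      exact inv_eq_of_mul_eq_one_left this
    show InJ E x⁻¹
    rw [h]; exact hx

open Classical in
/-- The closure operator (the identity outside elementary abelian subgroups). -/
noncomputable def jS (E : Subgroup G) : Subgroup G :=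
  if hE : IsEA 2 E then jEA E hE else E

theorem mem_jS {E : Subgroup G} (hE : IsEA 2 E) {x : G} : x ∈ jS E ↔ InJ E x := by
  unfold jS
  rw [dif_pos hE]
  exact Iff.rfl

theorem le_jS {E : Subgroup G} (hE : IsEA 2 E) : E ≤ jS E := fun _ hx =>
  (mem_jS hE).2 (InJ.of_mem hE hx)

theorem isEA_jS {E : Subgroup G} (hE : IsEA 2 E) : IsEA 2 (jS E) := by
  refine ⟨?_, ?_, ?_⟩
  · intro h
    apply hE.1
    rw [eq_bot_iff, ← h]
    exact le_jS hE
  · intro x hx y hy
    rw [mem_jS hE] at hx hy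
    exact hx.2 y hy.1 (fun e he => hy.comm hE he)
  · intro x hx
    rw [mem_jS hE] at hx
    exact hx.1

theorem jS_mono {E F : Subgroup G} (hE : IsEA 2 E) (hF : IsEA 2 F) (h : E ≤ F) : jS E ≤ jS F := by
  intro x hx
  rw [mem_jS hE] at hx
  rw [mem_jS hF]
  exact hx.mono h

theorem jS_closed {E : Subgroup G} (hE : IsEA 2 E) : JClosed (jS E) := by
  intro x hx
  rw [mem_jS hE]
  refine ⟨hx.1, ?_⟩
  intro y hy hc
  apply hx.2 y hy
  intro e he
  rw [mem_jS hE] at he
  exact he.2 y hy hc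

theorem jS_eq_of_closed {E : Subgroup G} (hE : IsEA 2 E) (h : JClosed E) : jS E = E := by
  apply le_antisymm
  · intro x hx
    exact h x ((mem_jS hE).1 hx)
  · exact le_jS hE

theorem conjSub_jS {E : Subgroup G} (hE : IsEA 2 E) (g : G) :
    jS (conjSub g E) = conjSub g (jS E) := by
  ext x
  rw [mem_jS (hE.conj g), mem_conjSub, mem_jS hE]
  constructor
  · intro h
    have := h.conj g⁻¹
    rwa [conjSub_inv_conjSub, inv_inv] at this
  · intro h
    have := h.conj g
    have h2 : g * (g⁻¹ * x * g) * g⁻¹ = x := by group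
    rwa [h2] at this

/-! ### The closure on chains and classes -/

/-- The closure of a chain. -/
noncomputable def Chain.j (c : Chain 2 G) : Chain 2 G :=
  ⟨jS '' c.1, c.2.1.image _, by
    rintro _ ⟨E, hE, rfl⟩ _ ⟨F, hF, rfl⟩ hne
    have hEF : E ≠ F := fun h => hne (by rw [h])
    rcases c.2.2.1 hE hF hEF with h | h
    · exact Or.inl (jS_mono (c.2.2.2 E hE) (c.2.2.2 F hF) h)
    · exact Or.inr (jS_mono (c.2.2.2 F hF) (c.2.2.2 E hE) h), by
    rintro _ ⟨E, hE, rfl⟩
    exact isEA_jS (c.2.2.2 E hE)⟩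

theorem Chain.j_conj (c : Chain 2 G) (g : G) : (c.conj g).j = c.j.conj g := by
  apply Subtype.ext
  ext R
  constructor
  · rintro ⟨_, ⟨E, hE, rfl⟩, rfl⟩
    exact ⟨jS E, ⟨E, hE, rfl⟩, (conjSub_jS (c.2.2.2 E hE) g).symm⟩
  · rintro ⟨_, ⟨E, hE, rfl⟩, rfl⟩
    exact ⟨conjSub g E, ⟨E, hE, rfl⟩, conjSub_jS (c.2.2.2 E hE) g⟩

/-- The closure on the orbit poset. -/
noncomputable def rho : OrbitPoset 2 G → OrbitPoset 2 G :=
  Quotient.lift (s := chainSetoid 2 G) (fun c => OrbitPoset.mk c.j) (by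
    rintro c d ⟨g, rfl⟩
    show OrbitPoset.mk c.j = OrbitPoset.mk (c.conj g).j
    rw [Chain.j_conj, OrbitPoset.mk_conj])

theorem rho_mk (c : Chain 2 G) : rho (OrbitPoset.mk c) = OrbitPoset.mk c.j := rfl

theorem rho_mono [Finite G] : Monotone (rho : OrbitPoset 2 G → OrbitPoset 2 G) := by
  rintro a b ⟨c, d, rfl, rfl, h⟩
  exact ⟨c.j, d.j, rfl, rfl, Set.image_mono h⟩

theorem rho_fix {c : Chain 2 G} (h : ∀ E ∈ c.1, JClosed E) :
    rho (OrbitPoset.mk c) = OrbitPoset.mk c := by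
  rw [rho_mk]
  congr 1
  apply Subtype.ext
  show jS '' c.1 = c.1
  ext R
  constructor
  · rintro ⟨E, hE, rfl⟩
    rw [jS_eq_of_closed (c.2.2.2 E hE) (h E hE)]
    exact hE
  · intro hR
    exact ⟨R, hR, jS_eq_of_closed (c.2.2.2 R hR) (h R hR)⟩

/-- A class `ρ z` above `[c]` is represented by a chain of closed subgroups containing `c`. -/
theorem exists_rep_of_mk_le_rho {c : Chain 2 G} {z : OrbitPoset 2 G}
    (h : OrbitPoset.mk c ≤ rho z) :
    ∃ d : Chain 2 G, OrbitPoset.mk d = rho z ∧ c.1 ⊆ d.1 ∧ ∀ R ∈ d.1, JClosed R := by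
  obtain ⟨e, rfl⟩ := z.exists_rep
  rw [rho_mk] at h ⊢
  obtain ⟨g, hg⟩ := OrbitPoset.mk_le_mk_iff.1 h
  refine ⟨e.j.conj g, OrbitPoset.mk_conj _ _, hg, ?_⟩
  rintro _ ⟨_, ⟨E, hE, rfl⟩, rfl⟩
  exact (jS_closed (e.2.2.2 E hE)).conj g

/-! ### Classes below a class -/

theorem exists_rep_of_le_mk {p : ℕ} {c : Chain p G} {y : OrbitPoset p G}
    (h : y ≤ OrbitPoset.mk c) : ∃ d : Chain p G, OrbitPoset.mk d = y ∧ d.1 ⊆ c.1 := by
  obtain ⟨e, rfl⟩ := y.exists_rep
  obtain ⟨g, hg⟩ := OrbitPoset.mk_le_mk_iff.1 h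
  refine ⟨e.conj g⁻¹, OrbitPoset.mk_conj _ _, ?_⟩
  rintro _ ⟨E, hE, rfl⟩
  obtain ⟨F, hF, rfl⟩ := hg hE
  simpa using hF

theorem card_conjSub (g : G) (E : Subgroup G) : Nat.card (conjSub g E) = Nat.card E := by
  refine (Nat.card_congr ?_).symm
  exact (Subgroup.equivMapOfInjective E _ (MulAut.conj g).injective).toEquiv

theorem eq_of_card_eq [Finite G] {p : ℕ} {c : Chain p G} {E F : Subgroup G} (hE : E ∈ c.1)
    (hF : F ∈ c.1) (h : Nat.card E = Nat.card F) : E = F := by
  by_contra hne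
  rcases c.2.2.1 hE hF hne with hle | hle
  · exact hne (Subgroup.eq_of_le_of_card_ge hle h.ge)
  · exact hne (Subgroup.eq_of_le_of_card_ge hle h.le).symm

/-- The one-element chain. -/
def Chain.single {p : ℕ} (E : Subgroup G) (hE : IsEA p E) : Chain p G :=
  ⟨{E}, Set.singleton_nonempty _, by simp [IsChain], by
    intro F hF
    rw [Set.mem_singleton_iff] at hF
    rw [hF]; exact hE⟩

theorem down_lemma [Finite G] {p : ℕ} {c : Chain p G} {y : OrbitPoset p G}
    (h : y ≤ OrbitPoset.mk c)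
    (hv : ∀ E (hE : E ∈ c.1), OrbitPoset.mk (Chain.single E (c.2.2.2 E hE)) ≤ y) :
    y = OrbitPoset.mk c := by
  obtain ⟨d, rfl, hd⟩ := exists_rep_of_le_mk h
  congr 1
  apply Subtype.ext
  apply Set.Subset.antisymm hd
  intro E hE
  obtain ⟨g, hg⟩ := OrbitPoset.mk_le_mk_iff.1 (hv E hE)
  obtain ⟨F, hF, hFE⟩ := hg (Set.mem_singleton E)
  have : F = E := by
    apply eq_of_card_eq (c := c) (hd hF) hE
    rw [← card_conjSub g F, hFE]
  rw [← this]; exact hF

end Pool.Agent.Helper74Webb
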