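import Pool.Agent.Helper74_Webb.Orbit

/-!
# The rigid family of 18 classes
-/

namespace Pool.Agent.Helper74Webb

open Topology

variable {G : Type} [Group G]

/-- A flag with five members. -/
def flag5 (X1 X2 X3 X4 X5 : Subgroup G) (h5 : IsEA 2 X5)
    (h12 : X1 ≤ X2) (h23 : X2 ≤ X3) (h34 : X3 ≤ X4) (h45 : X4 ≤ X5) (hb : X1 ≠ ⊥) : Chain 2 G :=
  ⟨{X1, X2, X3, X4, X5}, ⟨X1, by simp⟩, by
    have h13 := h12.trans h23
    have h14 := h13.trans h34
    have h15 := h14.trans h45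
    have h24 := h23.trans h34
    have h25 := h24.trans h45
    have h35 := h34.trans h45
    rintro a ha b hb hne
    simp only [Set.mem_insert_iff, Set.mem_singleton_iff] at ha hb
    rcases ha with rfl | rfl | rfl | rfl | rfl <;> rcases hb with rfl | rfl | rfl | rfl | rfl <;>
      first
      | exact absurd rfl hne
      | exact Or.inl (by assumption)
      | exact Or.inr (by assumption), by
    have h13 := h12.trans h23
    have h14 := h13.trans h34
    have h15 := h14.trans h45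
    have h24 := h23.trans h34
    have h25 := h24.trans h45
    have h35 := h34.trans h45
    have key : ∀ E, X1 ≤ E → E ≤ X5 → IsEA 2 E := by
      intro E hE1 hE5
      refine ⟨?_, fun x hx y hy => h5.2.1 x (hE5 hx) y (hE5 hy), fun x hx => h5.2.2 x (hE5 hx)⟩
      rintro rfl
      exact hb (le_bot_iff.1 hE1)
    rintro E hE
    simp only [Set.mem_insert_iff, Set.mem_singleton_iff] at hE
    rcases hE with rfl | rfl | rfl | rfl | rfl
    · exact key _ le_rfl h15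
    · exact key _ h12 h25
    · exact key _ h13 h35
    · exact key _ h14 h45
    · exact h5⟩

/-- A nonempty subset of a chain. -/
def subC (c : Chain 2 G) (S : Set (Subgroup G)) (hS : S ⊆ c.1) (hne : S.Nonempty) : Chain 2 G :=
  ⟨S, hne, c.2.2.1.mono hS, fun E hE => c.2.2.2 E (hS hE)⟩

theorem comparable {c : Chain 2 G} {R S : Subgroup G} (hR : R ∈ c.1) (hS : S ∈ c.1) :
    R ≤ S ∨ S ≤ R := by
  by_cases h : R = S
  · exact Or.inl h.le
  · exact c.2.2.1 hR hS h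

theorem sandwich [Finite G] {E R F : Subgroup G} (h1 : E ≤ R) (h2 : R ≤ F)
    (hc : Nat.card F = 2 * Nat.card E) : R = E ∨ R = F := by
  have d1 : Nat.card E ∣ Nat.card R := Subgroup.card_dvd_of_le h1
  have d2 : Nat.card R ∣ Nat.card F := Subgroup.card_dvd_of_le h2
  obtain ⟨a, ha⟩ := d1
  obtain ⟨b, hb⟩ := d2
  have hpos : 0 < Nat.card E := Nat.card_pos
  have hab : a * b = 2 := by
    have : Nat.card E * (a * b) = Nat.card E * 2 := by
      rw [← mul_assoc, ← ha, ← hb, hc, mul_comm]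
    exact Nat.eq_of_mul_eq_mul_left hpos this
  have ha2 : a ∣ 2 := ⟨b, hab.symm⟩
  rcases (Nat.dvd_prime Nat.prime_two).1 ha2 with h | h
  · left
    symm
    apply Subgroup.eq_of_le_of_card_ge h1
    rw [ha, h, mul_one]
  · right
    apply Subgroup.eq_of_le_of_card_ge h2
    rw [hc, ha, h, mul_comm]

theorem maxflag [Finite G] {X1 X2 X3 X4 X5 : Subgroup G} {d : Chain 2 G}
    (hd : ({X1, X2, X3, X4, X5} : Set (Subgroup G)) ⊆ d.1)
    (k1 : Nat.card X1 = 2) (k2 : Nat.card X2 = 4) (k3 : Nat.card X3 = 8) (k4 : Nat.card X4 = 16)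
    (hmax : ∀ R, IsEA 2 R → X5 ≤ R → R = X5)
    (hb : ∀ R ∈ d.1, X4 ≤ R → R ≤ X5 → R = X4 ∨ R = X5) :
    ∀ R ∈ d.1, R ∈ ({X1, X2, X3, X4, X5} : Set (Subgroup G)) := by
  intro R hR
  have m1 : X1 ∈ d.1 := hd (by simp)
  have m2 : X2 ∈ d.1 := hd (by simp)
  have m3 : X3 ∈ d.1 := hd (by simp)
  have m4 : X4 ∈ d.1 := hd (by simp)
  have m5 : X5 ∈ d.1 := hd (by simp)
  simp only [Set.mem_insert_iff, Set.mem_singleton_iff]
  rcases comparable m5 hR with h | h
  · have := hmax R (d.2.2.2 R hR) h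
    tauto
  rcases comparable m4 hR with h' | h'
  · have := hb R hR h' h
    tauto
  rcases comparable m3 hR with h'' | h''
  · have := sandwich h'' h' (by rw [k3, k4])
    tauto
  rcases comparable m2 hR with h3 | h3
  · have := sandwich h3 h'' (by rw [k2, k3])
    tauto
  rcases comparable m1 hR with h4 | h4
  · have := sandwich h4 h3 (by rw [k1, k2])
    tauto
  · have := sandwich (bot_le : ⊥ ≤ R) h4 (by rw [k1]; simp)
    rcases this with h5 | h5
    · exact absurd h5 (d.2.2.2 R hR).1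
    · tauto

/-- If `[d] ≤ [e]` then every member of `d` is conjugate (with a fixed `g`) to a member of `e`. -/
theorem shape {d e : Chain 2 G} (h : OrbitPoset.mk d ≤ OrbitPoset.mk e) :
    ∃ g : G, ∀ R ∈ d.1, ∃ E ∈ e.1, Nat.card R = Nat.card E ∧ R = conjSub g E := by
  obtain ⟨g, hg⟩ := OrbitPoset.mk_le_mk_iff.1 h
  refine ⟨g, fun R hR => ?_⟩
  obtain ⟨E, hE, rfl⟩ := hg hR
  exact ⟨E, hE, card_conjSub g E, rfl⟩

namespace Facts

variable (K : Facts G)

theorem botP : K.P ≠ ⊥ := by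
  intro h
  have := K.cP
  rw [h] at this
  simp at this

theorem botQ : K.Q ≠ ⊥ := by
  intro h
  have := K.cQ
  rw [h] at this
  simp at this

theorem botQ' : K.Q' ≠ ⊥ := by
  intro h
  have := K.cQ'
  rw [h] at this
  simp at this

def m1 : Chain 2 G := flag5 K.P K.L K.A K.F K.T K.eaT K.PL K.LA K.AF K.FT K.botP
def m2 : Chain 2 G := flag5 K.P K.L K.B K.F K.T K.eaT K.PL K.LB K.BF K.FT K.botP
def m3 : Chain 2 G := flag5 K.P K.L2 K.B K.F K.T K.eaT K.PL2 K.L2B K.BF K.FT K.botP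
def m4 : Chain 2 G := flag5 K.Q K.L K.B K.F K.T K.eaT K.QL K.LB K.BF K.FT K.botQ
def m5 : Chain 2 G := flag5 K.Q' K.La K.A K.F K.U K.eaU K.Q'La K.LaA K.AF K.FU K.botQ'
def m6 : Chain 2 G := flag5 K.Q K.L K.A K.F K.U K.eaU K.QL K.LA K.AF K.FU K.botQ
def m7 : Chain 2 G := flag5 K.P K.L K.B K.F K.U K.eaU K.PL K.LB K.BF K.FU K.botP
def c1 : Chain 2 G := subC K.m2 {K.P, K.B, K.F, K.T} (by
  intro x hx; simp only [Set.mem_insert_iff, Set.mem_singleton_iff, m2, flag5] at *; tauto)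
  ⟨K.P, by simp⟩
def c2 : Chain 2 G := subC K.m2 {K.P, K.L, K.B, K.T} (by
  intro x hx; simp only [Set.mem_insert_iff, Set.mem_singleton_iff, m2, flag5] at *; tauto)
  ⟨K.P, by simp⟩
def c3 : Chain 2 G := subC K.m6 {K.Q, K.A, K.U} (by
  intro x hx; simp only [Set.mem_insert_iff, Set.mem_singleton_iff, m6, flag5] at *; tauto)
  ⟨K.Q, by simp⟩
def vP : Chain 2 G := subC K.m1 {K.P} (by simp [m1, flag5]) (by simp)
def vQ : Chain 2 G := subC K.m4 {K.Q} (by simp [m4, flag5]) (by simp)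
def vL : Chain 2 G := subC K.m1 {K.L} (by simp [m1, flag5]) (by simp)
def vA : Chain 2 G := subC K.m1 {K.A} (by simp [m1, flag5]) (by simp)
def vB : Chain 2 G := subC K.m2 {K.B} (by simp [m2, flag5]) (by simp)
def vF : Chain 2 G := subC K.m1 {K.F} (by simp [m1, flag5]) (by simp)
def vT : Chain 2 G := subC K.m1 {K.T} (by simp [m1, flag5]) (by simp)
def vU : Chain 2 G := subC K.m6 {K.U} (by simp [m6, flag5]) (by simp)

end Facts

/-- The index set of the rigid family. -/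
inductive Idx
  | vP | vQ | vL | vA | vB | vF | vT | vU
  | c1 | c2 | c3
  | m1 | m2 | m3 | m4 | m5 | m6 | m7

namespace Facts

variable (K : Facts G)

/-- The representatives of the rigid family. -/
def rep : Idx → Chain 2 G
  | .vP => K.vP | .vQ => K.vQ | .vL => K.vL | .vA => K.vA | .vB => K.vB | .vF => K.vF
  | .vT => K.vT | .vU => K.vU
  | .c1 => K.c1 | .c2 => K.c2 | .c3 => K.c3
  | .m1 => K.m1 | .m2 => K.m2 | .m3 => K.m3 | .m4 => K.m4 | .m5 => K.m5 | .m6 => K.m6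
  | .m7 => K.m7

end Facts

/-- The levels. -/
def lvl : Idx → ℕ
  | .vP => 0 | .vQ => 0 | .vL => 0 | .vA => 0 | .vB => 0 | .vF => 0 | .vT => 0 | .vU => 0
  | .c1 => 1 | .c2 => 1 | .c3 => 1
  | .m1 => 2 | .m2 => 2 | .m3 => 2 | .m4 => 2 | .m5 => 2 | .m6 => 2 | .m7 => 2

namespace Facts

variable (K : Facts G)

theorem rep_closed (i : Idx) : ∀ E ∈ (K.rep i).1, JClosed E := by
  have := K.jP
  have := K.jQ
  have := K.jQ'
  have := K.jL
  have := K.jL2
  have := K.jLa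
  have := K.jA
  have := K.jB
  have := K.jF
  have := K.jT
  have := K.jU
  intro E hE
  cases i <;>
    simp only [rep, m1, m2, m3, m4, m5, m6, m7, c1, c2, c3, vP, vQ, vL, vA, vB, vF, vT, vU,
      flag5, subC, Set.mem_insert_iff, Set.mem_singleton_iff] at hE <;>
    (rcases hE with rfl | rfl | rfl | rfl | rfl <;> assumption)

theorem noPQ {R : Subgroup G} {g h : G} (h1 : R = conjSub g K.P) (h2 : R = conjSub h K.Q) :
    False := by
  apply K.N1 (h⁻¹ * g)
  rw [conjSub_mul, ← h1, h2, conjSub_inv_conjSub]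

theorem noAB {R : Subgroup G} {g h : G} (h1 : R = conjSub g K.A) (h2 : R = conjSub h K.B) :
    False := by
  apply K.N2 (h⁻¹ * g)
  rw [conjSub_mul, ← h1, h2, conjSub_inv_conjSub]

theorem sh_m1 {d : Chain 2 G} (h : OrbitPoset.mk d ≤ OrbitPoset.mk K.m1) :
    ∃ g : G, ∀ R ∈ d.1, (Nat.card R = 2 ∧ R = conjSub g K.P) ∨
      (Nat.card R = 4 ∧ R = conjSub g K.L) ∨
      (Nat.card R = 8 ∧ R = conjSub g K.A) ∨
      (Nat.card R = 16 ∧ R = conjSub g K.F) ∨
      (Nat.card R = 64 ∧ R = conjSub g K.T) := by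
  obtain ⟨g, hg⟩ := shape h
  refine ⟨g, fun R hR => ?_⟩
  have := hg R hR
  simpa only [m1, flag5, Set.mem_insert_iff, Set.mem_singleton_iff, exists_eq_or_imp,
    exists_eq_left, K.cP, K.cL, K.cA, K.cF, K.cT] using this

theorem sh_m2 {d : Chain 2 G} (h : OrbitPoset.mk d ≤ OrbitPoset.mk K.m2) :
    ∃ g : G, ∀ R ∈ d.1, (Nat.card R = 2 ∧ R = conjSub g K.P) ∨
      (Nat.card R = 4 ∧ R = conjSub g K.L) ∨
      (Nat.card R = 8 ∧ R = conjSub g K.B) ∨
      (Nat.card R = 16 ∧ R = conjSub g K.F) ∨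
      (Nat.card R = 64 ∧ R = conjSub g K.T) := by
  obtain ⟨g, hg⟩ := shape h
  refine ⟨g, fun R hR => ?_⟩
  have := hg R hR
  simpa only [m2, flag5, Set.mem_insert_iff, Set.mem_singleton_iff, exists_eq_or_imp,
    exists_eq_left, K.cP, K.cL, K.cB, K.cF, K.cT] using this

theorem sh_m3 {d : Chain 2 G} (h : OrbitPoset.mk d ≤ OrbitPoset.mk K.m3) :
    ∃ g : G, ∀ R ∈ d.1, (Nat.card R = 2 ∧ R = conjSub g K.P) ∨
      (Nat.card R = 4 ∧ R = conjSub g K.L2) ∨
      (Nat.card R = 8 ∧ R = conjSub g K.B) ∨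
      (Nat.card R = 16 ∧ R = conjSub g K.F) ∨
      (Nat.card R = 64 ∧ R = conjSub g K.T) := by
  obtain ⟨g, hg⟩ := shape h
  refine ⟨g, fun R hR => ?_⟩
  have := hg R hR
  simpa only [m3, flag5, Set.mem_insert_iff, Set.mem_singleton_iff, exists_eq_or_imp,
    exists_eq_left, K.cP, K.cL2, K.cB, K.cF, K.cT] using this

theorem sh_m4 {d : Chain 2 G} (h : OrbitPoset.mk d ≤ OrbitPoset.mk K.m4) :
    ∃ g : G, ∀ R ∈ d.1, (Nat.card R = 2 ∧ R = conjSub g K.Q) ∨
      (Nat.card R = 4 ∧ R = conjSub g K.L) ∨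
      (Nat.card R = 8 ∧ R = conjSub g K.B) ∨
      (Nat.card R = 16 ∧ R = conjSub g K.F) ∨
      (Nat.card R = 64 ∧ R = conjSub g K.T) := by
  obtain ⟨g, hg⟩ := shape h
  refine ⟨g, fun R hR => ?_⟩
  have := hg R hR
  simpa only [m4, flag5, Set.mem_insert_iff, Set.mem_singleton_iff, exists_eq_or_imp,
    exists_eq_left, K.cQ, K.cL, K.cB, K.cF, K.cT] using this

theorem sh_m5 {d : Chain 2 G} (h : OrbitPoset.mk d ≤ OrbitPoset.mk K.m5) :
    ∃ g : G, ∀ R ∈ d.1, (Nat.card R = 2 ∧ R = conjSub g K.Q') ∨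
      (Nat.card R = 4 ∧ R = conjSub g K.La) ∨
      (Nat.card R = 8 ∧ R = conjSub g K.A) ∨
      (Nat.card R = 16 ∧ R = conjSub g K.F) ∨
      (Nat.card R = 32 ∧ R = conjSub g K.U) := by
  obtain ⟨g, hg⟩ := shape h
  refine ⟨g, fun R hR => ?_⟩
  have := hg R hR
  simpa only [m5, flag5, Set.mem_insert_iff, Set.mem_singleton_iff, exists_eq_or_imp,
    exists_eq_left, K.cQ', K.cLa, K.cA, K.cF, K.cU] using this

theorem sh_m6 {d : Chain 2 G} (h : OrbitPoset.mk d ≤ OrbitPoset.mk K.m6) :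
    ∃ g : G, ∀ R ∈ d.1, (Nat.card R = 2 ∧ R = conjSub g K.Q) ∨
      (Nat.card R = 4 ∧ R = conjSub g K.L) ∨
      (Nat.card R = 8 ∧ R = conjSub g K.A) ∨
      (Nat.card R = 16 ∧ R = conjSub g K.F) ∨
      (Nat.card R = 32 ∧ R = conjSub g K.U) := by
  obtain ⟨g, hg⟩ := shape h
  refine ⟨g, fun R hR => ?_⟩
  have := hg R hR
  simpa only [m6, flag5, Set.mem_insert_iff, Set.mem_singleton_iff, exists_eq_or_imp,
    exists_eq_left, K.cQ, K.cL, K.cA, K.cF, K.cU] using this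

theorem sh_m7 {d : Chain 2 G} (h : OrbitPoset.mk d ≤ OrbitPoset.mk K.m7) :
    ∃ g : G, ∀ R ∈ d.1, (Nat.card R = 2 ∧ R = conjSub g K.P) ∨
      (Nat.card R = 4 ∧ R = conjSub g K.L) ∨
      (Nat.card R = 8 ∧ R = conjSub g K.B) ∨
      (Nat.card R = 16 ∧ R = conjSub g K.F) ∨
      (Nat.card R = 32 ∧ R = conjSub g K.U) := by
  obtain ⟨g, hg⟩ := shape h
  refine ⟨g, fun R hR => ?_⟩
  have := hg R hR
  simpa only [m7, flag5, Set.mem_insert_iff, Set.mem_singleton_iff, exists_eq_or_imp,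
    exists_eq_left, K.cP, K.cL, K.cB, K.cF, K.cU] using this

theorem sh_c1 {d : Chain 2 G} (h : OrbitPoset.mk d ≤ OrbitPoset.mk K.c1) :
    ∃ g : G, ∀ R ∈ d.1, (Nat.card R = 2 ∧ R = conjSub g K.P) ∨
      (Nat.card R = 8 ∧ R = conjSub g K.B) ∨
      (Nat.card R = 16 ∧ R = conjSub g K.F) ∨
      (Nat.card R = 64 ∧ R = conjSub g K.T) := by
  obtain ⟨g, hg⟩ := shape h
  refine ⟨g, fun R hR => ?_⟩
  have := hg R hR
  simpa only [c1, subC, Set.mem_insert_iff, Set.mem_singleton_iff, exists_eq_or_imp,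
    exists_eq_left, K.cP, K.cB, K.cF, K.cT] using this

theorem sh_c2 {d : Chain 2 G} (h : OrbitPoset.mk d ≤ OrbitPoset.mk K.c2) :
    ∃ g : G, ∀ R ∈ d.1, (Nat.card R = 2 ∧ R = conjSub g K.P) ∨
      (Nat.card R = 4 ∧ R = conjSub g K.L) ∨
      (Nat.card R = 8 ∧ R = conjSub g K.B) ∨
      (Nat.card R = 64 ∧ R = conjSub g K.T) := by
  obtain ⟨g, hg⟩ := shape h
  refine ⟨g, fun R hR => ?_⟩
  have := hg R hR
  simpa only [c2, subC, Set.mem_insert_iff, Set.mem_singleton_iff, exists_eq_or_imp,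
    exists_eq_left, K.cP, K.cL, K.cB, K.cT] using this

theorem sh_c3 {d : Chain 2 G} (h : OrbitPoset.mk d ≤ OrbitPoset.mk K.c3) :
    ∃ g : G, ∀ R ∈ d.1, (Nat.card R = 2 ∧ R = conjSub g K.Q) ∨
      (Nat.card R = 8 ∧ R = conjSub g K.A) ∨
      (Nat.card R = 32 ∧ R = conjSub g K.U) := by
  obtain ⟨g, hg⟩ := shape h
  refine ⟨g, fun R hR => ?_⟩
  have := hg R hR
  simpa only [c3, subC, Set.mem_insert_iff, Set.mem_singleton_iff, exists_eq_or_imp,
    exists_eq_left, K.cQ, K.cA, K.cU] using this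

end Facts

end Pool.Agent.Helper74Webb
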