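import Pool.Agent.Helper74_Webb.Grp

/-!
# The involution `u`, the subgroup `U` and the conjugators
-/

namespace Pool.Agent.Helper74Webb

namespace GG

/-- `ρ p = p + (1 + z p) e₁`. -/
def rhoP : Equiv.Perm X where
  toFun p := (p.1 + 1 + p.2.2, p.2.1, p.2.2)
  invFun p := (p.1 + 1 + p.2.2, p.2.1, p.2.2)
  left_inv := by intro p; revert p; decide
  right_inv := by intro p; revert p; decide

/-- The involution `u = ((x+y)z, ρ)`. -/
def u : GG := ⟨fun p => (p.1 + p.2.1) * p.2.2, rhoP, by decide⟩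

@[simp] theorem u_f (p : X) : u.f p = (p.1 + p.2.1) * p.2.2 := rfl
@[simp] theorem u_s (p : X) : u.s p = (p.1 + 1 + p.2.2, p.2.1, p.2.2) := rfl
@[simp] theorem u_symm (p : X) : u.s.symm p = (p.1 + 1 + p.2.2, p.2.1, p.2.2) := rfl

theorem u_sq : u * u = 1 := by decide

theorem u_inv : u⁻¹ = u := by
  rw [inv_eq_iff_mul_eq_one, u_sq]

theorem comm_u_iff : ∀ v : X × X, th v * u = u * th v ↔ SF v := by decide

theorem u_ne_th : ∀ v : X × X, u ≠ th v := by decide

/-- The subgroup `U = F ∪ F u`. -/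
def gU : Subgroup GG where
  carrier := {g | ∃ v, SF v ∧ (th v = g ∨ th v * u = g)}
  one_mem' := ⟨0, by decide, Or.inl th_zero⟩
  mul_mem' := by
    have hF : ∀ v w : X × X, SF v → SF w → SF (v + w) := by
      rintro ⟨⟨a, b, c⟩, ⟨d, e, f⟩⟩ ⟨⟨a', b', c'⟩, ⟨d', e', f'⟩⟩ h h'
      simp only [SF, Prod.fst_add, Prod.snd_add] at *
      grind
    rintro x y ⟨v, hv, hx⟩ ⟨w, hw, hy⟩
    refine ⟨v + w, hF v w hv hw, ?_⟩
    have hc := (comm_u_iff w).2 hw
    rcases hx with rfl | rfl <;> rcases hy with rfl | rfl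
    · left; rw [th_mul]
    · right; rw [← mul_assoc, th_mul]
    · right
      rw [mul_assoc, ← hc, ← mul_assoc, th_mul]
    · left
      rw [mul_assoc, ← mul_assoc u, ← hc, mul_assoc, u_sq, mul_one, th_mul]
  inv_mem' := by
    rintro x ⟨v, hv, hx⟩
    refine ⟨v, hv, ?_⟩
    have hc := (comm_u_iff v).2 hv
    rcases hx with rfl | rfl
    · left; rw [th_inv]
    · right; rw [mul_inv_rev, u_inv, th_inv, hc]

theorem mem_gU {g : GG} : g ∈ gU ↔ ∃ v, SF v ∧ (th v = g ∨ th v * u = g) := Iff.rfl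

theorem u_mem_gU : u ∈ gU := ⟨0, by decide, Or.inr (by rw [th_zero, one_mul])⟩

theorem th_mem_gU {v : X × X} (h : SF v) : th v ∈ gU := ⟨v, h, Or.inl rfl⟩

theorem thu_mem_gU {v : X × X} (h : SF v) : th v * u ∈ gU := ⟨v, h, Or.inr rfl⟩

theorem gF_le_gU : gF ≤ gU := by
  rintro _ ⟨v, hv, rfl⟩
  exact th_mem_gU hv

theorem card_gU : Nat.card gU = 32 := by
  have e : ({v // SF v} × Bool) ≃ gU :=
    Equiv.ofBijective
      (fun q => ⟨if q.2 then th q.1.1 * u else th q.1.1, by
        rcases q with ⟨⟨v, hv⟩, b⟩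
        cases b
        · simpa using th_mem_gU hv
        · simpa using thu_mem_gU hv⟩) (by
      constructor
      · rintro ⟨⟨v, hv⟩, b⟩ ⟨⟨w, hw⟩, b'⟩ h
        have h' := congrArg Subtype.val h
        cases b <;> cases b' <;> simp only [Bool.false_eq_true, if_true, if_false] at h'
        · have := th_inj h'
          subst this; rfl
        · exfalso
          have h2 : u = th w * th v := by
            rw [h', ← mul_assoc, th_mul, vv, th_zero, one_mul]
          rw [th_mul] at h2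
          exact u_ne_th _ h2
        · exfalso
          have h2 : u = th v * th w := by
            rw [← h', ← mul_assoc, th_mul, vv, th_zero, one_mul]
          rw [th_mul] at h2
          exact u_ne_th _ h2
        · have := th_inj (mul_right_cancel h')
          subst this; rfl
      · rintro ⟨g, v, hv, hg⟩
        rcases hg with rfl | rfl
        · exact ⟨⟨⟨v, hv⟩, false⟩, rfl⟩
        · exact ⟨⟨⟨v, hv⟩, true⟩, rfl⟩)
  rw [← Nat.card_congr e, Nat.card_prod, Nat.card_eq_fintype_card, Nat.card_eq_fintype_card,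
    Fintype.card_subtype]
  rfl

/-! ### Inclusions -/

theorem mkSub_le {S S' : X × X → Prop} {h0 : S 0} {hadd : ∀ v w, S v → S w → S (v + w)}
    {h0' : S' 0} {hadd' : ∀ v w, S' v → S' w → S' (v + w)} (h : ∀ v, S v → S' v) :
    mkSub S h0 hadd ≤ mkSub S' h0' hadd' := by
  rintro _ ⟨v, hv, rfl⟩
  exact ⟨v, h v hv, rfl⟩

theorem PL : gP ≤ gL := mkSub_le (by decide)
theorem QL : gQ ≤ gL := mkSub_le (by decide)
theorem LA : gL ≤ gA := mkSub_le (by decide)
theorem LB : gL ≤ gB := mkSub_le (by decide)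
theorem AF : gA ≤ gF := mkSub_le (by decide)
theorem BF : gB ≤ gF := mkSub_le (by decide)
theorem FT : gF ≤ gT := mkSub_le (fun _ _ => trivial)
theorem PL2 : gP ≤ gL2 := mkSub_le (by decide)
theorem L2B : gL2 ≤ gB := mkSub_le (by decide)
theorem Q'La : gQ' ≤ gLa := mkSub_le (by decide)
theorem LaA : gLa ≤ gA := mkSub_le (by decide)

/-! ### The conjugators -/

/-- swap of `x` and `y` -/
def sw12 : Equiv.Perm X where
  toFun p := (p.2.1, p.1, p.2.2)
  invFun p := (p.2.1, p.1, p.2.2)
  left_inv := by intro p; revert p; decide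
  right_inv := by intro p; revert p; decide

/-- swap of `y` and `z` -/
def sw23 : Equiv.Perm X where
  toFun p := (p.1, p.2.2, p.2.1)
  invFun p := (p.1, p.2.2, p.2.1)
  left_inv := by intro p; revert p; decide
  right_inv := by intro p; revert p; decide

/-- `κ p = p + (1 + z p) (y p) e₁`. -/
def kap : Equiv.Perm X where
  toFun p := (p.1 + (1 + p.2.2) * p.2.1, p.2.1, p.2.2)
  invFun p := (p.1 + (1 + p.2.2) * p.2.1, p.2.1, p.2.2)
  left_inv := by intro p; revert p; decide
  right_inv := by intro p; revert p; decide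

def c1 : GG := ⟨fun p => p.1 * p.2.1, sw12, by decide⟩
def c2 : GG := ⟨fun p => p.1 * p.2.1 * p.2.2, kap, by decide⟩
def c3 : GG := ⟨fun _ => 0, sw23, rfl⟩

/-- A criterion for `conjSub g E = E'`. -/
theorem conjSub_eq_of {g : GG} {E E' : Subgroup GG} (h : ∀ x ∈ E, g * x * g⁻¹ ∈ E')
    (hc : Nat.card E = Nat.card E') : conjSub g E = E' := by
  apply Subgroup.eq_of_le_of_card_ge
  · intro x hx
    rw [mem_conjSub] at hx
    have := h _ hx
    have e : g * (g⁻¹ * x * g) * g⁻¹ = x := by group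
    rwa [e] at this
  · rw [card_conjSub, hc]

/-- the action of `c1` on `T` -/
def M1 (v : X × X) : X × X :=
  ((v.1.2.1 + v.2.1, v.1.1 + v.2.2.1, v.1.2.2), (v.2.2.1, v.2.1, v.2.2.2))

theorem c1_conj : ∀ v : X × X, c1 * th v * c1⁻¹ = th (M1 v) := by decide

/-- the action of `c3` on `T` -/
def M3 (v : X × X) : X × X :=
  ((v.1.1, v.1.2.2, v.1.2.1), (v.2.1, v.2.2.2, v.2.2.1))

theorem c3_conj : ∀ v : X × X, c3 * th v * c3⁻¹ = th (M3 v) := by decide

theorem conj_mkSub {S S' : X × X → Prop} {h0 : S 0} {hadd : ∀ v w, S v → S w → S (v + w)}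
    {h0' : S' 0} {hadd' : ∀ v w, S' v → S' w → S' (v + w)} {g : GG} {M : X × X → X × X}
    (hM : ∀ v, S v → g * th v * g⁻¹ = th (M v)) (h : ∀ v, S v → S' (M v))
    (hc : Nat.card (mkSub S h0 hadd) = Nat.card (mkSub S' h0' hadd')) :
    conjSub g (mkSub S h0 hadd) = mkSub S' h0' hadd' := by
  apply conjSub_eq_of _ hc
  rintro _ ⟨v, hv, rfl⟩
  rw [hM v hv]
  exact ⟨_, h v hv, rfl⟩

theorem c1P : conjSub c1 gP = gP := conj_mkSub (M := M1) (fun v _ => c1_conj v) (by decide) rfl
theorem c1L2 : conjSub c1 gL2 = gL := conj_mkSub (M := M1) (fun v _ => c1_conj v) (by decide)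
  (by have := card_gL2; have := card_gL; unfold gL gL2 at *; omega)
theorem c1L : conjSub c1 gL = gL2 := conj_mkSub (M := M1) (fun v _ => c1_conj v) (by decide)
  (by have := card_gL2; have := card_gL; unfold gL gL2 at *; omega)
theorem c1B : conjSub c1 gB = gB := conj_mkSub (M := M1) (fun v _ => c1_conj v) (by decide) rfl
theorem c1T : conjSub c1 gT = gT := conj_mkSub (M := M1) (fun v _ => c1_conj v)
  (fun _ _ => trivial) rfl
theorem c3La : conjSub c3 gLa = gL := conj_mkSub (M := M3) (fun v _ => c3_conj v) (by decide)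
  (by have := card_gLa; have := card_gL; unfold gL gLa at *; omega)
theorem c3L : conjSub c3 gL = gLa := conj_mkSub (M := M3) (fun v _ => c3_conj v) (by decide)
  (by have := card_gLa; have := card_gL; unfold gL gLa at *; omega)


/-- the action of `c2` on `F` (up to `u`) -/
def M2 (v : X × X) : X × X :=
  ((v.1.1, v.1.2.1 + v.2.1 + v.2.2.1, v.1.2.2 + v.2.2.1), v.2)

theorem c2_conj0 : ∀ v : X × X, SF v → v.2.2.1 = 0 → c2 * th v * c2⁻¹ = th (M2 v) := by decide

theorem c2_conj1 : ∀ v : X × X, SF v → v.2.2.1 = 1 → c2 * th v * c2⁻¹ = th (M2 v) * u := by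
  decide

theorem c2_u : c2 * u * c2⁻¹ = u := by decide

theorem M2_SF : ∀ v : X × X, SF v → SF (M2 v) := by decide

theorem c2Q' : conjSub c2 gQ' = gQ := conj_mkSub (M := M2)
  (fun v hv => c2_conj0 v (by revert v; decide) hv.2.1) (by decide)
  (by have := card_gQ; have := card_gQ'; unfold gQ gQ' at *; omega)

theorem c2Q : conjSub c2 gQ = gQ' := conj_mkSub (M := M2)
  (fun v hv => c2_conj0 v (by revert v; decide) hv.2.1) (by decide)
  (by have := card_gQ; have := card_gQ'; unfold gQ gQ' at *; omega)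

theorem c2A : conjSub c2 gA = gA := conj_mkSub (M := M2)
  (fun v hv => c2_conj0 v (by revert v; decide) hv.2.1) (by decide) rfl

theorem zmod2_cases (a : ZMod 2) : a = 0 ∨ a = 1 := by revert a; decide

theorem c2U : conjSub c2 gU = gU := by
  apply conjSub_eq_of _ rfl
  have key : ∀ v, SF v → c2 * th v * c2⁻¹ = th (M2 v) ∨ c2 * th v * c2⁻¹ = th (M2 v) * u := by
    intro v hv
    rcases zmod2_cases v.2.2.1 with h | h
    · exact Or.inl (c2_conj0 v hv h)
    · exact Or.inr (c2_conj1 v hv h)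
  rintro x ⟨v, hv, hx⟩
  have hs := M2_SF v hv
  rcases hx with rfl | rfl
  · rcases key v hv with h | h
    · rw [h]; exact th_mem_gU hs
    · rw [h]; exact thu_mem_gU hs
  · have e : c2 * (th v * u) * c2⁻¹ = (c2 * th v * c2⁻¹) * (c2 * u * c2⁻¹) := by group
    rw [e, c2_u]
    rcases key v hv with h | h
    · rw [h]; exact thu_mem_gU hs
    · rw [h, mul_assoc, u_sq, mul_one]; exact th_mem_gU hs

end GG

end Pool.Agent.Helper74Webb
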