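import Pool.Agent.Helper74_Webb.Rigid

/-!
# The up-lemma for the rigid family
-/

namespace Pool.Agent.Helper74Webb

set_option linter.unusedTactic false
set_option linter.unreachableTactic false

open Topology

variable {G : Type} [Group G]

namespace Facts

variable (K : Facts G)

theorem up_vP [Finite G] {d : Chain 2 G} (hin : K.P ∈ d.1)
    (w0 : OrbitPoset.mk d ≤ OrbitPoset.mk K.c1)
    (w1 : OrbitPoset.mk d ≤ OrbitPoset.mk K.c2)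
    (w2 : OrbitPoset.mk d ≤ OrbitPoset.mk K.m7)
    (w3 : OrbitPoset.mk d ≤ OrbitPoset.mk K.m1) :
    ∀ R ∈ d.1, R = K.P := by
  obtain ⟨g0, s0⟩ := K.sh_c1 w0
  obtain ⟨g1, s1⟩ := K.sh_c2 w1
  obtain ⟨g2, s2⟩ := K.sh_m7 w2
  obtain ⟨g3, s3⟩ := K.sh_m1 w3
  intro R hR
  rcases s0 R hR with ⟨a0, b0⟩ | ⟨a0, b0⟩ | ⟨a0, b0⟩ | ⟨a0, b0⟩ <;>
    rcases s1 R hR with ⟨a1, b1⟩ | ⟨a1, b1⟩ | ⟨a1, b1⟩ | ⟨a1, b1⟩ <;>
    first | (exfalso; omega) | skip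
  all_goals rcases s2 R hR with ⟨a2, b2⟩ | ⟨a2, b2⟩ | ⟨a2, b2⟩ | ⟨a2, b2⟩ | ⟨a2, b2⟩ <;>
    first | (exfalso; omega) | skip
  all_goals rcases s3 R hR with ⟨a3, b3⟩ | ⟨a3, b3⟩ | ⟨a3, b3⟩ | ⟨a3, b3⟩ | ⟨a3, b3⟩ <;>
    first | (exfalso; omega) | skip
  all_goals first
    | exact eq_of_card_eq hR hin (a0.trans K.cP.symm)
    | exact (K.noPQ b0 b1).elim
    | exact (K.noAB b0 b1).elim
    | exact (K.noPQ b0 b2).elim
    | exact (K.noAB b0 b2).elim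
    | exact (K.noPQ b0 b3).elim
    | exact (K.noAB b0 b3).elim
    | exact (K.noPQ b1 b0).elim
    | exact (K.noAB b1 b0).elim
    | exact (K.noPQ b1 b2).elim
    | exact (K.noAB b1 b2).elim
    | exact (K.noPQ b1 b3).elim
    | exact (K.noAB b1 b3).elim
    | exact (K.noPQ b2 b0).elim
    | exact (K.noAB b2 b0).elim
    | exact (K.noPQ b2 b1).elim
    | exact (K.noAB b2 b1).elim
    | exact (K.noPQ b2 b3).elim
    | exact (K.noAB b2 b3).elim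
    | exact (K.noPQ b3 b0).elim
    | exact (K.noAB b3 b0).elim
    | exact (K.noPQ b3 b1).elim
    | exact (K.noAB b3 b1).elim
    | exact (K.noPQ b3 b2).elim
    | exact (K.noAB b3 b2).elim

theorem up_vQ [Finite G] {d : Chain 2 G} (hin : K.Q ∈ d.1)
    (w0 : OrbitPoset.mk d ≤ OrbitPoset.mk K.c3)
    (w1 : OrbitPoset.mk d ≤ OrbitPoset.mk K.m4)
    (w2 : OrbitPoset.mk d ≤ OrbitPoset.mk K.m6)
    (w3 : OrbitPoset.mk d ≤ OrbitPoset.mk K.m5) :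
    ∀ R ∈ d.1, R = K.Q := by
  obtain ⟨g0, s0⟩ := K.sh_c3 w0
  obtain ⟨g1, s1⟩ := K.sh_m4 w1
  obtain ⟨g2, s2⟩ := K.sh_m6 w2
  obtain ⟨g3, s3⟩ := K.sh_m5 w3
  intro R hR
  rcases s0 R hR with ⟨a0, b0⟩ | ⟨a0, b0⟩ | ⟨a0, b0⟩ <;>
    rcases s1 R hR with ⟨a1, b1⟩ | ⟨a1, b1⟩ | ⟨a1, b1⟩ | ⟨a1, b1⟩ | ⟨a1, b1⟩ <;>
    first | (exfalso; omega) | skip
  all_goals rcases s2 R hR with ⟨a2, b2⟩ | ⟨a2, b2⟩ | ⟨a2, b2⟩ | ⟨a2, b2⟩ | ⟨a2, b2⟩ <;>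
    first | (exfalso; omega) | skip
  all_goals rcases s3 R hR with ⟨a3, b3⟩ | ⟨a3, b3⟩ | ⟨a3, b3⟩ | ⟨a3, b3⟩ | ⟨a3, b3⟩ <;>
    first | (exfalso; omega) | skip
  all_goals first
    | exact eq_of_card_eq hR hin (a0.trans K.cQ.symm)
    | exact (K.noPQ b0 b1).elim
    | exact (K.noAB b0 b1).elim
    | exact (K.noPQ b0 b2).elim
    | exact (K.noAB b0 b2).elim
    | exact (K.noPQ b0 b3).elim
    | exact (K.noAB b0 b3).elim
    | exact (K.noPQ b1 b0).elim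
    | exact (K.noAB b1 b0).elim
    | exact (K.noPQ b1 b2).elim
    | exact (K.noAB b1 b2).elim
    | exact (K.noPQ b1 b3).elim
    | exact (K.noAB b1 b3).elim
    | exact (K.noPQ b2 b0).elim
    | exact (K.noAB b2 b0).elim
    | exact (K.noPQ b2 b1).elim
    | exact (K.noAB b2 b1).elim
    | exact (K.noPQ b2 b3).elim
    | exact (K.noAB b2 b3).elim
    | exact (K.noPQ b3 b0).elim
    | exact (K.noAB b3 b0).elim
    | exact (K.noPQ b3 b1).elim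
    | exact (K.noAB b3 b1).elim
    | exact (K.noPQ b3 b2).elim
    | exact (K.noAB b3 b2).elim

theorem up_vL [Finite G] {d : Chain 2 G} (hin : K.L ∈ d.1)
    (w0 : OrbitPoset.mk d ≤ OrbitPoset.mk K.c2)
    (w1 : OrbitPoset.mk d ≤ OrbitPoset.mk K.m7)
    (w2 : OrbitPoset.mk d ≤ OrbitPoset.mk K.m1)
    (w3 : OrbitPoset.mk d ≤ OrbitPoset.mk K.m4) :
    ∀ R ∈ d.1, R = K.L := by
  obtain ⟨g0, s0⟩ := K.sh_c2 w0
  obtain ⟨g1, s1⟩ := K.sh_m7 w1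
  obtain ⟨g2, s2⟩ := K.sh_m1 w2
  obtain ⟨g3, s3⟩ := K.sh_m4 w3
  intro R hR
  rcases s0 R hR with ⟨a0, b0⟩ | ⟨a0, b0⟩ | ⟨a0, b0⟩ | ⟨a0, b0⟩ <;>
    rcases s1 R hR with ⟨a1, b1⟩ | ⟨a1, b1⟩ | ⟨a1, b1⟩ | ⟨a1, b1⟩ | ⟨a1, b1⟩ <;>
    first | (exfalso; omega) | skip
  all_goals rcases s2 R hR with ⟨a2, b2⟩ | ⟨a2, b2⟩ | ⟨a2, b2⟩ | ⟨a2, b2⟩ | ⟨a2, b2⟩ <;>
    first | (exfalso; omega) | skip
  all_goals rcases s3 R hR with ⟨a3, b3⟩ | ⟨a3, b3⟩ | ⟨a3, b3⟩ | ⟨a3, b3⟩ | ⟨a3, b3⟩ <;>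
    first | (exfalso; omega) | skip
  all_goals first
    | exact eq_of_card_eq hR hin (a0.trans K.cL.symm)
    | exact (K.noPQ b0 b1).elim
    | exact (K.noAB b0 b1).elim
    | exact (K.noPQ b0 b2).elim
    | exact (K.noAB b0 b2).elim
    | exact (K.noPQ b0 b3).elim
    | exact (K.noAB b0 b3).elim
    | exact (K.noPQ b1 b0).elim
    | exact (K.noAB b1 b0).elim
    | exact (K.noPQ b1 b2).elim
    | exact (K.noAB b1 b2).elim
    | exact (K.noPQ b1 b3).elim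
    | exact (K.noAB b1 b3).elim
    | exact (K.noPQ b2 b0).elim
    | exact (K.noAB b2 b0).elim
    | exact (K.noPQ b2 b1).elim
    | exact (K.noAB b2 b1).elim
    | exact (K.noPQ b2 b3).elim
    | exact (K.noAB b2 b3).elim
    | exact (K.noPQ b3 b0).elim
    | exact (K.noAB b3 b0).elim
    | exact (K.noPQ b3 b1).elim
    | exact (K.noAB b3 b1).elim
    | exact (K.noPQ b3 b2).elim
    | exact (K.noAB b3 b2).elim

theorem up_vA [Finite G] {d : Chain 2 G} (hin : K.A ∈ d.1)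
    (w0 : OrbitPoset.mk d ≤ OrbitPoset.mk K.c3)
    (w1 : OrbitPoset.mk d ≤ OrbitPoset.mk K.m1) :
    ∀ R ∈ d.1, R = K.A := by
  obtain ⟨g0, s0⟩ := K.sh_c3 w0
  obtain ⟨g1, s1⟩ := K.sh_m1 w1
  intro R hR
  rcases s0 R hR with ⟨a0, b0⟩ | ⟨a0, b0⟩ | ⟨a0, b0⟩ <;>
    rcases s1 R hR with ⟨a1, b1⟩ | ⟨a1, b1⟩ | ⟨a1, b1⟩ | ⟨a1, b1⟩ | ⟨a1, b1⟩ <;>
    first | (exfalso; omega) | skip
  all_goals first
    | exact eq_of_card_eq hR hin (a0.trans K.cA.symm)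
    | exact (K.noPQ b0 b1).elim
    | exact (K.noAB b0 b1).elim
    | exact (K.noPQ b1 b0).elim
    | exact (K.noAB b1 b0).elim

theorem up_vB [Finite G] {d : Chain 2 G} (hin : K.B ∈ d.1)
    (w0 : OrbitPoset.mk d ≤ OrbitPoset.mk K.c1)
    (w1 : OrbitPoset.mk d ≤ OrbitPoset.mk K.c2)
    (w2 : OrbitPoset.mk d ≤ OrbitPoset.mk K.m7)
    (w3 : OrbitPoset.mk d ≤ OrbitPoset.mk K.m2)
    (w4 : OrbitPoset.mk d ≤ OrbitPoset.mk K.m4) :
    ∀ R ∈ d.1, R = K.B := by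
  obtain ⟨g0, s0⟩ := K.sh_c1 w0
  obtain ⟨g1, s1⟩ := K.sh_c2 w1
  obtain ⟨g2, s2⟩ := K.sh_m7 w2
  obtain ⟨g3, s3⟩ := K.sh_m2 w3
  obtain ⟨g4, s4⟩ := K.sh_m4 w4
  intro R hR
  rcases s0 R hR with ⟨a0, b0⟩ | ⟨a0, b0⟩ | ⟨a0, b0⟩ | ⟨a0, b0⟩ <;>
    rcases s1 R hR with ⟨a1, b1⟩ | ⟨a1, b1⟩ | ⟨a1, b1⟩ | ⟨a1, b1⟩ <;>
    first | (exfalso; omega) | skip
  all_goals rcases s2 R hR with ⟨a2, b2⟩ | ⟨a2, b2⟩ | ⟨a2, b2⟩ | ⟨a2, b2⟩ | ⟨a2, b2⟩ <;>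
    first | (exfalso; omega) | skip
  all_goals rcases s3 R hR with ⟨a3, b3⟩ | ⟨a3, b3⟩ | ⟨a3, b3⟩ | ⟨a3, b3⟩ | ⟨a3, b3⟩ <;>
    first | (exfalso; omega) | skip
  all_goals rcases s4 R hR with ⟨a4, b4⟩ | ⟨a4, b4⟩ | ⟨a4, b4⟩ | ⟨a4, b4⟩ | ⟨a4, b4⟩ <;>
    first | (exfalso; omega) | skip
  all_goals first
    | exact eq_of_card_eq hR hin (a0.trans K.cB.symm)
    | exact (K.noPQ b0 b1).elim
    | exact (K.noAB b0 b1).elim
    | exact (K.noPQ b0 b2).elim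
    | exact (K.noAB b0 b2).elim
    | exact (K.noPQ b0 b3).elim
    | exact (K.noAB b0 b3).elim
    | exact (K.noPQ b0 b4).elim
    | exact (K.noAB b0 b4).elim
    | exact (K.noPQ b1 b0).elim
    | exact (K.noAB b1 b0).elim
    | exact (K.noPQ b1 b2).elim
    | exact (K.noAB b1 b2).elim
    | exact (K.noPQ b1 b3).elim
    | exact (K.noAB b1 b3).elim
    | exact (K.noPQ b1 b4).elim
    | exact (K.noAB b1 b4).elim
    | exact (K.noPQ b2 b0).elim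
    | exact (K.noAB b2 b0).elim
    | exact (K.noPQ b2 b1).elim
    | exact (K.noAB b2 b1).elim
    | exact (K.noPQ b2 b3).elim
    | exact (K.noAB b2 b3).elim
    | exact (K.noPQ b2 b4).elim
    | exact (K.noAB b2 b4).elim
    | exact (K.noPQ b3 b0).elim
    | exact (K.noAB b3 b0).elim
    | exact (K.noPQ b3 b1).elim
    | exact (K.noAB b3 b1).elim
    | exact (K.noPQ b3 b2).elim
    | exact (K.noAB b3 b2).elim
    | exact (K.noPQ b3 b4).elim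
    | exact (K.noAB b3 b4).elim
    | exact (K.noPQ b4 b0).elim
    | exact (K.noAB b4 b0).elim
    | exact (K.noPQ b4 b1).elim
    | exact (K.noAB b4 b1).elim
    | exact (K.noPQ b4 b2).elim
    | exact (K.noAB b4 b2).elim
    | exact (K.noPQ b4 b3).elim
    | exact (K.noAB b4 b3).elim

theorem up_vF [Finite G] {d : Chain 2 G} (hin : K.F ∈ d.1)
    (w0 : OrbitPoset.mk d ≤ OrbitPoset.mk K.m7)
    (w1 : OrbitPoset.mk d ≤ OrbitPoset.mk K.c1)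
    (w2 : OrbitPoset.mk d ≤ OrbitPoset.mk K.m4)
    (w3 : OrbitPoset.mk d ≤ OrbitPoset.mk K.m1) :
    ∀ R ∈ d.1, R = K.F := by
  obtain ⟨g0, s0⟩ := K.sh_m7 w0
  obtain ⟨g1, s1⟩ := K.sh_c1 w1
  obtain ⟨g2, s2⟩ := K.sh_m4 w2
  obtain ⟨g3, s3⟩ := K.sh_m1 w3
  intro R hR
  rcases s0 R hR with ⟨a0, b0⟩ | ⟨a0, b0⟩ | ⟨a0, b0⟩ | ⟨a0, b0⟩ | ⟨a0, b0⟩ <;>
    rcases s1 R hR with ⟨a1, b1⟩ | ⟨a1, b1⟩ | ⟨a1, b1⟩ | ⟨a1, b1⟩ <;>
    first | (exfalso; omega) | skip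
  all_goals rcases s2 R hR with ⟨a2, b2⟩ | ⟨a2, b2⟩ | ⟨a2, b2⟩ | ⟨a2, b2⟩ | ⟨a2, b2⟩ <;>
    first | (exfalso; omega) | skip
  all_goals rcases s3 R hR with ⟨a3, b3⟩ | ⟨a3, b3⟩ | ⟨a3, b3⟩ | ⟨a3, b3⟩ | ⟨a3, b3⟩ <;>
    first | (exfalso; omega) | skip
  all_goals first
    | exact eq_of_card_eq hR hin (a0.trans K.cF.symm)
    | exact (K.noPQ b0 b1).elim
    | exact (K.noAB b0 b1).elim
    | exact (K.noPQ b0 b2).elim
    | exact (K.noAB b0 b2).elim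
    | exact (K.noPQ b0 b3).elim
    | exact (K.noAB b0 b3).elim
    | exact (K.noPQ b1 b0).elim
    | exact (K.noAB b1 b0).elim
    | exact (K.noPQ b1 b2).elim
    | exact (K.noAB b1 b2).elim
    | exact (K.noPQ b1 b3).elim
    | exact (K.noAB b1 b3).elim
    | exact (K.noPQ b2 b0).elim
    | exact (K.noAB b2 b0).elim
    | exact (K.noPQ b2 b1).elim
    | exact (K.noAB b2 b1).elim
    | exact (K.noPQ b2 b3).elim
    | exact (K.noAB b2 b3).elim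
    | exact (K.noPQ b3 b0).elim
    | exact (K.noAB b3 b0).elim
    | exact (K.noPQ b3 b1).elim
    | exact (K.noAB b3 b1).elim
    | exact (K.noPQ b3 b2).elim
    | exact (K.noAB b3 b2).elim

theorem up_vT [Finite G] {d : Chain 2 G} (hin : K.T ∈ d.1)
    (w0 : OrbitPoset.mk d ≤ OrbitPoset.mk K.c1)
    (w1 : OrbitPoset.mk d ≤ OrbitPoset.mk K.c2)
    (w2 : OrbitPoset.mk d ≤ OrbitPoset.mk K.m1)
    (w3 : OrbitPoset.mk d ≤ OrbitPoset.mk K.m4) :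
    ∀ R ∈ d.1, R = K.T := by
  obtain ⟨g0, s0⟩ := K.sh_c1 w0
  obtain ⟨g1, s1⟩ := K.sh_c2 w1
  obtain ⟨g2, s2⟩ := K.sh_m1 w2
  obtain ⟨g3, s3⟩ := K.sh_m4 w3
  intro R hR
  rcases s0 R hR with ⟨a0, b0⟩ | ⟨a0, b0⟩ | ⟨a0, b0⟩ | ⟨a0, b0⟩ <;>
    rcases s1 R hR with ⟨a1, b1⟩ | ⟨a1, b1⟩ | ⟨a1, b1⟩ | ⟨a1, b1⟩ <;>
    first | (exfalso; omega) | skip
  all_goals rcases s2 R hR with ⟨a2, b2⟩ | ⟨a2, b2⟩ | ⟨a2, b2⟩ | ⟨a2, b2⟩ | ⟨a2, b2⟩ <;>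
    first | (exfalso; omega) | skip
  all_goals rcases s3 R hR with ⟨a3, b3⟩ | ⟨a3, b3⟩ | ⟨a3, b3⟩ | ⟨a3, b3⟩ | ⟨a3, b3⟩ <;>
    first | (exfalso; omega) | skip
  all_goals first
    | exact eq_of_card_eq hR hin (a0.trans K.cT.symm)
    | exact (K.noPQ b0 b1).elim
    | exact (K.noAB b0 b1).elim
    | exact (K.noPQ b0 b2).elim
    | exact (K.noAB b0 b2).elim
    | exact (K.noPQ b0 b3).elim
    | exact (K.noAB b0 b3).elim
    | exact (K.noPQ b1 b0).elim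
    | exact (K.noAB b1 b0).elim
    | exact (K.noPQ b1 b2).elim
    | exact (K.noAB b1 b2).elim
    | exact (K.noPQ b1 b3).elim
    | exact (K.noAB b1 b3).elim
    | exact (K.noPQ b2 b0).elim
    | exact (K.noAB b2 b0).elim
    | exact (K.noPQ b2 b1).elim
    | exact (K.noAB b2 b1).elim
    | exact (K.noPQ b2 b3).elim
    | exact (K.noAB b2 b3).elim
    | exact (K.noPQ b3 b0).elim
    | exact (K.noAB b3 b0).elim
    | exact (K.noPQ b3 b1).elim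
    | exact (K.noAB b3 b1).elim
    | exact (K.noPQ b3 b2).elim
    | exact (K.noAB b3 b2).elim

theorem up_vU [Finite G] {d : Chain 2 G} (hin : K.U ∈ d.1)
    (w0 : OrbitPoset.mk d ≤ OrbitPoset.mk K.c3)
    (w1 : OrbitPoset.mk d ≤ OrbitPoset.mk K.m7) :
    ∀ R ∈ d.1, R = K.U := by
  obtain ⟨g0, s0⟩ := K.sh_c3 w0
  obtain ⟨g1, s1⟩ := K.sh_m7 w1
  intro R hR
  rcases s0 R hR with ⟨a0, b0⟩ | ⟨a0, b0⟩ | ⟨a0, b0⟩ <;>
    rcases s1 R hR with ⟨a1, b1⟩ | ⟨a1, b1⟩ | ⟨a1, b1⟩ | ⟨a1, b1⟩ | ⟨a1, b1⟩ <;>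
    first | (exfalso; omega) | skip
  all_goals first
    | exact eq_of_card_eq hR hin (a0.trans K.cU.symm)
    | exact (K.noPQ b0 b1).elim
    | exact (K.noAB b0 b1).elim
    | exact (K.noPQ b1 b0).elim
    | exact (K.noAB b1 b0).elim


theorem conj_rel {R X Y : Subgroup G} {g h : G} (h1 : R = conjSub g X) (h2 : R = conjSub h Y) :
    conjSub (h⁻¹ * g) X = Y := by
  rw [conjSub_mul, ← h1, h2, conjSub_inv_conjSub]

theorem up_c1 [Finite G] {d : Chain 2 G} (hP : K.P ∈ d.1) (hB : K.B ∈ d.1) (hF : K.F ∈ d.1)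
    (hT : K.T ∈ d.1) (w0 : OrbitPoset.mk d ≤ OrbitPoset.mk K.m2)
    (w1 : OrbitPoset.mk d ≤ OrbitPoset.mk K.m3) :
    ∀ R ∈ d.1, R = K.P ∨ R = K.B ∨ R = K.F ∨ R = K.T := by
  obtain ⟨g, s⟩ := K.sh_m2 w0
  obtain ⟨h, t⟩ := K.sh_m3 w1
  have hc := K.cF
  have F1 : K.F = conjSub g K.F := by
    rcases s _ hF with ⟨a, b⟩ | ⟨a, b⟩ | ⟨a, b⟩ | ⟨a, b⟩ | ⟨a, b⟩ <;> first | omega | exact b
  have F2 : K.F = conjSub h K.F := by
    rcases t _ hF with ⟨a, b⟩ | ⟨a, b⟩ | ⟨a, b⟩ | ⟨a, b⟩ | ⟨a, b⟩ <;> first | omega | exact b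
  intro R hR
  rcases s R hR with ⟨a, b⟩ | ⟨a, b⟩ | ⟨a, b⟩ | ⟨a, b⟩ | ⟨a, b⟩
  · exact Or.inl (eq_of_card_eq hR hP (a.trans K.cP.symm))
  · exfalso
    have L2 : R = conjSub h K.L2 := by
      rcases t _ hR with ⟨a', b'⟩ | ⟨a', b'⟩ | ⟨a', b'⟩ | ⟨a', b'⟩ | ⟨a', b'⟩ <;>
        first | omega | exact b'
    exact K.N3 _ (conj_rel b L2) (conj_rel F1 F2)
  · exact Or.inr (Or.inl (eq_of_card_eq hR hB (a.trans K.cB.symm)))
  · exact Or.inr (Or.inr (Or.inl (eq_of_card_eq hR hF (a.trans K.cF.symm))))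
  · exact Or.inr (Or.inr (Or.inr (eq_of_card_eq hR hT (a.trans K.cT.symm))))

theorem up_c2 [Finite G] {d : Chain 2 G} (hP : K.P ∈ d.1) (hL : K.L ∈ d.1) (hB : K.B ∈ d.1)
    (hT : K.T ∈ d.1) (w0 : OrbitPoset.mk d ≤ OrbitPoset.mk K.m2)
    (w1 : OrbitPoset.mk d ≤ OrbitPoset.mk K.m3) :
    ∀ R ∈ d.1, R = K.P ∨ R = K.L ∨ R = K.B ∨ R = K.T := by
  obtain ⟨g, s⟩ := K.sh_m2 w0
  obtain ⟨h, t⟩ := K.sh_m3 w1
  have hc := K.cL
  have L1 : K.L = conjSub g K.L := by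
    rcases s _ hL with ⟨a, b⟩ | ⟨a, b⟩ | ⟨a, b⟩ | ⟨a, b⟩ | ⟨a, b⟩ <;> first | omega | exact b
  have L2 : K.L = conjSub h K.L2 := by
    rcases t _ hL with ⟨a, b⟩ | ⟨a, b⟩ | ⟨a, b⟩ | ⟨a, b⟩ | ⟨a, b⟩ <;> first | omega | exact b
  intro R hR
  rcases s R hR with ⟨a, b⟩ | ⟨a, b⟩ | ⟨a, b⟩ | ⟨a, b⟩ | ⟨a, b⟩
  · exact Or.inl (eq_of_card_eq hR hP (a.trans K.cP.symm))
  · exact Or.inr (Or.inl (eq_of_card_eq hR hL (a.trans K.cL.symm)))
  · exact Or.inr (Or.inr (Or.inl (eq_of_card_eq hR hB (a.trans K.cB.symm))))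
  · exfalso
    have F2 : R = conjSub h K.F := by
      rcases t _ hR with ⟨a', b'⟩ | ⟨a', b'⟩ | ⟨a', b'⟩ | ⟨a', b'⟩ | ⟨a', b'⟩ <;>
        first | omega | exact b'
    exact K.N3 _ (conj_rel L1 L2) (conj_rel b F2)
  · exact Or.inr (Or.inr (Or.inr (eq_of_card_eq hR hT (a.trans K.cT.symm))))

theorem up_c3 [Finite G] {d : Chain 2 G} (hQ : K.Q ∈ d.1) (hA : K.A ∈ d.1) (hU : K.U ∈ d.1)
    (w0 : OrbitPoset.mk d ≤ OrbitPoset.mk K.m6)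
    (w1 : OrbitPoset.mk d ≤ OrbitPoset.mk K.m5) :
    ∀ R ∈ d.1, R = K.Q ∨ R = K.A ∨ R = K.U := by
  obtain ⟨g, s⟩ := K.sh_m6 w0
  obtain ⟨h, t⟩ := K.sh_m5 w1
  have hc := K.cU
  have hc' := K.cQ
  have U1 : K.U = conjSub g K.U := by
    rcases s _ hU with ⟨a, b⟩ | ⟨a, b⟩ | ⟨a, b⟩ | ⟨a, b⟩ | ⟨a, b⟩ <;> first | omega | exact b
  have U2 : K.U = conjSub h K.U := by
    rcases t _ hU with ⟨a, b⟩ | ⟨a, b⟩ | ⟨a, b⟩ | ⟨a, b⟩ | ⟨a, b⟩ <;> first | omega | exact b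
  have Q1 : K.Q = conjSub g K.Q := by
    rcases s _ hQ with ⟨a, b⟩ | ⟨a, b⟩ | ⟨a, b⟩ | ⟨a, b⟩ | ⟨a, b⟩ <;> first | omega | exact b
  have Q2 : K.Q = conjSub h K.Q' := by
    rcases t _ hQ with ⟨a, b⟩ | ⟨a, b⟩ | ⟨a, b⟩ | ⟨a, b⟩ | ⟨a, b⟩ <;> first | omega | exact b
  intro R hR
  rcases s R hR with ⟨a, b⟩ | ⟨a, b⟩ | ⟨a, b⟩ | ⟨a, b⟩ | ⟨a, b⟩
  · exact Or.inl (eq_of_card_eq hR hQ (a.trans K.cQ.symm))
  · exfalso
    have La : R = conjSub h K.La := by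
      rcases t _ hR with ⟨a', b'⟩ | ⟨a', b'⟩ | ⟨a', b'⟩ | ⟨a', b'⟩ | ⟨a', b'⟩ <;>
        first | omega | exact b'
    exact K.N4 _ (conj_rel b La) (conj_rel U1 U2)
  · exact Or.inr (Or.inl (eq_of_card_eq hR hA (a.trans K.cA.symm)))
  · exfalso
    have F2 : R = conjSub h K.F := by
      rcases t _ hR with ⟨a', b'⟩ | ⟨a', b'⟩ | ⟨a', b'⟩ | ⟨a', b'⟩ | ⟨a', b'⟩ <;>
        first | omega | exact b'
    exact K.N5 _ (conj_rel Q1 Q2) (conj_rel b F2)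
  · exact Or.inr (Or.inr (eq_of_card_eq hR hU (a.trans K.cU.symm)))

theorem betwT {d : Chain 2 G} (hd : ∀ R ∈ d.1, JClosed R) :
    ∀ R ∈ d.1, K.F ≤ R → R ≤ K.T → R = K.F ∨ R = K.T :=
  fun R hR h1 h2 => K.betw R (d.2.2.2 R hR) (hd R hR) h1 h2

theorem betwU [Finite G] {d : Chain 2 G} :
    ∀ R ∈ d.1, K.F ≤ R → R ≤ K.U → R = K.F ∨ R = K.U :=
  fun _ _ h1 h2 => sandwich h1 h2 (by rw [K.cU, K.cF])

theorem up_m1 [Finite G] {d : Chain 2 G} (hd : ∀ R ∈ d.1, JClosed R) (h : K.m1.1 ⊆ d.1) :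
    ∀ R ∈ d.1, R ∈ K.m1.1 :=
  maxflag h K.cP K.cL K.cA K.cF K.maxT (K.betwT hd)

theorem up_m2 [Finite G] {d : Chain 2 G} (hd : ∀ R ∈ d.1, JClosed R) (h : K.m2.1 ⊆ d.1) :
    ∀ R ∈ d.1, R ∈ K.m2.1 :=
  maxflag h K.cP K.cL K.cB K.cF K.maxT (K.betwT hd)

theorem up_m3 [Finite G] {d : Chain 2 G} (hd : ∀ R ∈ d.1, JClosed R) (h : K.m3.1 ⊆ d.1) :
    ∀ R ∈ d.1, R ∈ K.m3.1 :=
  maxflag h K.cP K.cL2 K.cB K.cF K.maxT (K.betwT hd)

theorem up_m4 [Finite G] {d : Chain 2 G} (hd : ∀ R ∈ d.1, JClosed R) (h : K.m4.1 ⊆ d.1) :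
    ∀ R ∈ d.1, R ∈ K.m4.1 :=
  maxflag h K.cQ K.cL K.cB K.cF K.maxT (K.betwT hd)

theorem up_m5 [Finite G] {d : Chain 2 G} (h : K.m5.1 ⊆ d.1) :
    ∀ R ∈ d.1, R ∈ K.m5.1 :=
  maxflag h K.cQ' K.cLa K.cA K.cF K.maxU K.betwU

theorem up_m6 [Finite G] {d : Chain 2 G} (h : K.m6.1 ⊆ d.1) :
    ∀ R ∈ d.1, R ∈ K.m6.1 :=
  maxflag h K.cQ K.cL K.cA K.cF K.maxU K.betwU

theorem up_m7 [Finite G] {d : Chain 2 G} (h : K.m7.1 ⊆ d.1) :
    ∀ R ∈ d.1, R ∈ K.m7.1 :=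
  maxflag h K.cP K.cL K.cB K.cF K.maxU K.betwU

theorem le_of_subset {p : ℕ} {c d : Chain p G} (h : c.1 ⊆ d.1) :
    OrbitPoset.mk c ≤ OrbitPoset.mk d := ⟨c, d, rfl, rfl, h⟩

theorem c2_le_m3 : OrbitPoset.mk K.c2 ≤ OrbitPoset.mk K.m3 := by
  refine OrbitPoset.mk_le_mk_iff.2 ⟨K.g1, ?_⟩
  intro E hE
  simp only [c2, subC, Set.mem_insert_iff, Set.mem_singleton_iff] at hE
  rcases hE with rfl | rfl | rfl | rfl
  · exact ⟨K.P, by simp [m3, flag5], K.g1P⟩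
  · exact ⟨K.L2, by simp [m3, flag5], K.g1L2⟩
  · exact ⟨K.B, by simp [m3, flag5], K.g1B⟩
  · exact ⟨K.T, by simp [m3, flag5], K.g1T⟩

theorem c3_le_m5 : OrbitPoset.mk K.c3 ≤ OrbitPoset.mk K.m5 := by
  refine OrbitPoset.mk_le_mk_iff.2 ⟨K.g2, ?_⟩
  intro E hE
  simp only [c3, subC, Set.mem_insert_iff, Set.mem_singleton_iff] at hE
  rcases hE with rfl | rfl | rfl
  · exact ⟨K.Q', by simp [m5, flag5], K.g2Q'⟩
  · exact ⟨K.A, by simp [m5, flag5], K.g2A⟩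
  · exact ⟨K.U, by simp [m5, flag5], K.g2U⟩

theorem Q_le_m5 : OrbitPoset.mk K.vQ ≤ OrbitPoset.mk K.m5 := by
  refine OrbitPoset.mk_le_mk_iff.2 ⟨K.g2, ?_⟩
  intro E hE
  simp only [vQ, subC, Set.mem_singleton_iff] at hE
  subst hE
  exact ⟨K.Q', by simp [m5, flag5], K.g2Q'⟩

theorem L_le_m5 : OrbitPoset.mk K.vL ≤ OrbitPoset.mk K.m5 := by
  refine OrbitPoset.mk_le_mk_iff.2 ⟨K.g3, ?_⟩
  intro E hE
  simp only [vL, subC, Set.mem_singleton_iff] at hE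
  subst hE
  exact ⟨K.La, by simp [m5, flag5], K.g3La⟩

theorem L_le_m3 : OrbitPoset.mk K.vL ≤ OrbitPoset.mk K.m3 := by
  refine OrbitPoset.mk_le_mk_iff.2 ⟨K.g1, ?_⟩
  intro E hE
  simp only [vL, subC, Set.mem_singleton_iff] at hE
  subst hE
  exact ⟨K.L2, by simp [m3, flag5], K.g1L2⟩

/-- The up-lemma. -/
theorem up [Finite G] (i : Idx) (z : OrbitPoset 2 G) (h1 : OrbitPoset.mk (K.rep i) ≤ rho z)
    (h2 : ∀ k, lvl i < lvl k → OrbitPoset.mk (K.rep i) ≤ OrbitPoset.mk (K.rep k) →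
      rho z ≤ OrbitPoset.mk (K.rep k)) : rho z = OrbitPoset.mk (K.rep i) := by
  obtain ⟨d, hd, hsub, hcl⟩ := exists_rep_of_mk_le_rho h1
  rw [← hd] at h2 ⊢
  have main : (∀ R ∈ d.1, R ∈ (K.rep i).1) → OrbitPoset.mk d = OrbitPoset.mk (K.rep i) := by
    intro h
    congr 1
    exact Subtype.ext (Set.Subset.antisymm h hsub)
  apply main
  have w : ∀ k, lvl i < lvl k → (K.rep i).1 ⊆ (K.rep k).1 →
      OrbitPoset.mk d ≤ OrbitPoset.mk (K.rep k) :=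
    fun k hk hs => h2 k hk (le_of_subset hs)
  cases i with
  | vP =>
    exact K.up_vP (hsub (by simp [rep, vP, subC]))
      (w .c1 (by decide) (by simp [rep, vP, c1, subC]))
      (w .c2 (by decide) (by simp [rep, vP, c2, subC]))
      (w .m7 (by decide) (by simp [rep, vP, m7, subC, flag5]))
      (w .m1 (by decide) (by simp [rep, vP, m1, subC, flag5]))
  | vQ =>
    exact K.up_vQ (hsub (by simp [rep, vQ, subC]))
      (w .c3 (by decide) (by simp [rep, vQ, c3, subC]))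
      (w .m4 (by decide) (by simp [rep, vQ, m4, subC, flag5]))
      (w .m6 (by decide) (by simp [rep, vQ, m6, subC, flag5]))
      (h2 .m5 (by decide) K.Q_le_m5)
  | vL =>
    exact K.up_vL (hsub (by simp [rep, vL, subC]))
      (w .c2 (by decide) (by simp [rep, vL, c2, subC]))
      (w .m7 (by decide) (by simp [rep, vL, m7, subC, flag5]))
      (w .m1 (by decide) (by simp [rep, vL, m1, subC, flag5]))
      (w .m4 (by decide) (by simp [rep, vL, m4, subC, flag5]))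
  | vA =>
    exact K.up_vA (hsub (by simp [rep, vA, subC]))
      (w .c3 (by decide) (by simp [rep, vA, c3, subC]))
      (w .m1 (by decide) (by simp [rep, vA, m1, subC, flag5]))
  | vB =>
    exact K.up_vB (hsub (by simp [rep, vB, subC]))
      (w .c1 (by decide) (by simp [rep, vB, c1, subC]))
      (w .c2 (by decide) (by simp [rep, vB, c2, subC]))
      (w .m7 (by decide) (by simp [rep, vB, m7, subC, flag5]))
      (w .m2 (by decide) (by simp [rep, vB, m2, subC, flag5]))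
      (w .m4 (by decide) (by simp [rep, vB, m4, subC, flag5]))
  | vF =>
    exact K.up_vF (hsub (by simp [rep, vF, subC]))
      (w .m7 (by decide) (by simp [rep, vF, m7, subC, flag5]))
      (w .c1 (by decide) (by simp [rep, vF, c1, subC]))
      (w .m4 (by decide) (by simp [rep, vF, m4, subC, flag5]))
      (w .m1 (by decide) (by simp [rep, vF, m1, subC, flag5]))
  | vT =>
    exact K.up_vT (hsub (by simp [rep, vT, subC]))
      (w .c1 (by decide) (by simp [rep, vT, c1, subC]))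
      (w .c2 (by decide) (by simp [rep, vT, c2, subC]))
      (w .m1 (by decide) (by simp [rep, vT, m1, subC, flag5]))
      (w .m4 (by decide) (by simp [rep, vT, m4, subC, flag5]))
  | vU =>
    exact K.up_vU (hsub (by simp [rep, vU, subC]))
      (w .c3 (by decide) (by simp [rep, vU, c3, subC]))
      (w .m7 (by decide) (by simp [rep, vU, m7, subC, flag5]))
  | c1 =>
    exact K.up_c1 (hsub (by simp [rep, c1, subC])) (hsub (by simp [rep, c1, subC]))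
      (hsub (by simp [rep, c1, subC])) (hsub (by simp [rep, c1, subC]))
      (w .m2 (by decide) (by
        intro x hx
        simp only [rep, c1, m2, subC, flag5, Set.mem_insert_iff, Set.mem_singleton_iff] at *
        tauto))
      (w .m3 (by decide) (by
        intro x hx
        simp only [rep, c1, m3, subC, flag5, Set.mem_insert_iff, Set.mem_singleton_iff] at *
        tauto))
  | c2 =>
    exact K.up_c2 (hsub (by simp [rep, c2, subC])) (hsub (by simp [rep, c2, subC]))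
      (hsub (by simp [rep, c2, subC])) (hsub (by simp [rep, c2, subC]))
      (w .m2 (by decide) (by
        intro x hx
        simp only [rep, c2, m2, subC, flag5, Set.mem_insert_iff, Set.mem_singleton_iff] at *
        tauto))
      (h2 .m3 (by decide) K.c2_le_m3)
  | c3 =>
    exact K.up_c3 (hsub (by simp [rep, c3, subC])) (hsub (by simp [rep, c3, subC]))
      (hsub (by simp [rep, c3, subC]))
      (w .m6 (by decide) (by
        intro x hx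
        simp only [rep, c3, m6, subC, flag5, Set.mem_insert_iff, Set.mem_singleton_iff] at *
        tauto))
      (h2 .m5 (by decide) K.c3_le_m5)
  | m1 => exact K.up_m1 hcl hsub
  | m2 => exact K.up_m2 hcl hsub
  | m3 => exact K.up_m3 hcl hsub
  | m4 => exact K.up_m4 hcl hsub
  | m5 => exact K.up_m5 hsub
  | m6 => exact K.up_m6 hsub
  | m7 => exact K.up_m7 hsub

end Facts

end Pool.Agent.Helper74Webb
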